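import Mathlib
import Pool.Agent.E8helper34.MR.Set

set_option autoImplicit false

/-! In dimension less than `2 ^ k * binom (N - 2) k` (and `2 ^ (N - 1 - k)`) the products of `k`
factors `A_i - 1` vanish. -/

namespace Pool.Agent.E8helper34.M4

open Pool.Agent.H798R3.MG Pool.Agent.TH35.MG Pool.Agent.R352.MG Module

section ring
variable {G : Type*} [Group G] {R : Type*} [Ring R]
  {N : ℕ} {A B al be T : ℕ → G} {tau : G} {h : ∀ i < N, ∀ j < N, Commute (A i) (A j)}

theorem X_conj (r : HRel N A B al be T tau) (ρ : G →* R) {i : ℕ} (hi : i + 1 < N) {E : Finset ℕ}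
    (hE : ∀ j ∈ E, j < N) : ρ (Ss A B T i) * X ρ h E =
      X ρ h (E.image (Equiv.swap i (i + 1))) * ρ (Ss A B T i) := by
  set s := Ss A B T i with hs
  have s1 : s * A i = A (i + 1) * s := r.sA i hi
  have s2 : s * A (i + 1) = A i * s := r.sA' i hi
  apply P_conj _ (Equiv.swap i (i + 1)).injective
  intro j hj
  have hjN := hE j hj
  rcases eq_or_ne j i with rfl | h1
  · rw [Equiv.swap_apply_left, fN_lt ρ hjN, fN_lt ρ hi, mul_sub, sub_mul, mul_one, one_mul,
      ← map_mul, ← map_mul, s1]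
  · rcases eq_or_ne j (i + 1) with rfl | h2
    · rw [Equiv.swap_apply_right, fN_lt ρ hjN, fN_lt ρ (by omega), mul_sub, sub_mul, mul_one,
        one_mul, ← map_mul, ← map_mul, s2]
    · rw [Equiv.swap_apply_of_ne_of_ne h1 h2, fN_lt ρ hjN]
      have c : Commute s (A j) := Ss_comm (r.commAA i (by omega) j hjN)
        (r.commAB j hjN i (by omega) h1).symm (r.commTA i hi j hjN)
        (r.commAB j hjN (i + 1) hi h2).symm (r.commAA (i + 1) hi j hjN)
      exact ((c.map ρ).sub_right (Commute.one_right _)).eq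

theorem A_conj (r : HRel N A B al be T tau) (ρ : G →* R) {i : ℕ} (hi : i + 1 < N) {j : ℕ}
    (hjN : j < N) : ρ (Ss A B T i) * (ρ (A j) - 1) =
      (ρ (A (Equiv.swap i (i + 1) j)) - 1) * ρ (Ss A B T i) := by
  set s := Ss A B T i with hs
  have s1 : s * A i = A (i + 1) * s := r.sA i hi
  have s2 : s * A (i + 1) = A i * s := r.sA' i hi
  rcases eq_or_ne j i with rfl | h1
  · rw [Equiv.swap_apply_left, mul_sub, sub_mul, mul_one, one_mul,
      ← map_mul, ← map_mul, s1]
  · rcases eq_or_ne j (i + 1) with rfl | h2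
    · rw [Equiv.swap_apply_right, mul_sub, sub_mul, mul_one,
        one_mul, ← map_mul, ← map_mul, s2]
    · rw [Equiv.swap_apply_of_ne_of_ne h1 h2]
      have c : Commute s (A j) := Ss_comm (r.commAA i (by omega) j hjN)
        (r.commAB j hjN i (by omega) h1).symm (r.commTA i hi j hjN)
        (r.commAB j hjN (i + 1) hi h2).symm (r.commAA (i + 1) hi j hjN)
      exact ((c.map ρ).sub_right (Commute.one_right _)).eq

theorem Z_swap (r : HRel N A B al be T tau) (ρ : G →* R) {i : ℕ} (hi : i + 1 < N) {E : Finset ℕ}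
    (hE : ∀ j ∈ E, j < N) {j : ℕ} (hj : j < N) :
    (ρ (A j) - 1) * X ρ h E = 0 ↔
      (ρ (A (Equiv.swap i (i + 1) j)) - 1) * X ρ h (E.image (Equiv.swap i (i + 1))) = 0 := by
  set s := Ss A B T i with hs
  have e : ρ s * ((ρ (A j) - 1) * X ρ h E) =
      (ρ (A (Equiv.swap i (i + 1) j)) - 1) * X ρ h (E.image (Equiv.swap i (i + 1))) * ρ s := by
    rw [← mul_assoc, A_conj r ρ hi hj, mul_assoc, X_conj r ρ hi hE, mul_assoc]
  have h1 : ρ s * ρ s⁻¹ = 1 := by rw [← map_mul, mul_inv_cancel, map_one]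
  have h2 : ρ s⁻¹ * ρ s = 1 := by rw [← map_mul, inv_mul_cancel, map_one]
  constructor
  · intro h0
    rw [h0, mul_zero] at e
    calc _ = (ρ (A (Equiv.swap i (i + 1) j)) - 1) * X ρ h (E.image (Equiv.swap i (i + 1))) *
          ρ s * ρ s⁻¹ := by rw [mul_assoc _ (ρ s), h1, mul_one]
      _ = 0 := by rw [← e, zero_mul]
  · intro h0
    rw [h0, zero_mul] at e
    calc _ = ρ s⁻¹ * (ρ s * ((ρ (A j) - 1) * X ρ h E)) := by rw [← mul_assoc, h2, one_mul]
      _ = 0 := by rw [e, mul_zero]

/-- move the set to an initial segment, keeping track of an element -/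
theorem Z_red (r : HRel N A B al be T tau) (ρ : G →* R) {E : Finset ℕ}
    (hE : ∀ j ∈ E, j < N) {p : ℕ} (hp : p ∈ E) :
    ∃ q < E.card, ((ρ (A p) - 1) * X ρ h E = 0 ↔
      (ρ (A q) - 1) * X ρ h (Finset.range E.card) = 0) := by
  obtain ⟨n, hn⟩ : ∃ n, n = ∑ i ∈ E, i := ⟨_, rfl⟩
  induction n using Nat.strong_induction_on generalizing E p with
  | _ n ih =>
    by_cases hx : ∃ i, i ∉ E ∧ i + 1 ∈ E
    · obtain ⟨i, hi1, hi2⟩ := hx
      have hiN := hE _ hi2
      have hcard : (E.image (Equiv.swap i (i + 1))).card = E.card :=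
        Finset.card_image_of_injective _ (Equiv.swap i (i + 1)).injective
      have hsw : ∀ j ∈ E, (Equiv.swap i (i + 1)) j ≤ j := by
        intro j hj
        rcases eq_or_ne j (i + 1) with rfl | h2
        · rw [Equiv.swap_apply_right]; omega
        · rw [Equiv.swap_apply_of_ne_of_ne (by rintro rfl; exact hi1 hj) h2]
      obtain ⟨q, hq, h3⟩ := ih (∑ j ∈ E.image (Equiv.swap i (i + 1)), j) (by
          rw [hn, Finset.sum_image (fun a _ b _ hab => (Equiv.swap i (i + 1)).injective hab)]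
          refine Finset.sum_lt_sum hsw ⟨i + 1, hi2, ?_⟩
          rw [Equiv.swap_apply_right]
          omega) (E := E.image (Equiv.swap i (i + 1))) (by
          intro j hj
          obtain ⟨m, hm, rfl⟩ := Finset.mem_image.1 hj
          exact lt_of_le_of_lt (hsw m hm) (hE m hm)) (p := Equiv.swap i (i + 1) p)
          (Finset.mem_image_of_mem _ hp) rfl
      rw [hcard] at hq h3
      exact ⟨q, hq, (Z_swap r ρ hiN hE (hE p hp)).trans h3⟩
    · have e : E = Finset.range E.card := eq_range fun i hi => by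
        by_contra hcon
        exact hx ⟨i, hcon, hi⟩
      refine ⟨p, ?_, ?_⟩
      · have := hp
        rw [e] at this
        exact Finset.mem_range.1 this
      · rw [← e]

/-- inside an initial segment the place does not matter -/
theorem Z_in (r : HRel N A B al be T tau) (ρ : G →* R) {k : ℕ} (hk : k ≤ N) {q : ℕ} (hq : q < k) :
    (ρ (A q) - 1) * X ρ h (Finset.range k) = 0 ↔ (ρ (A 0) - 1) * X ρ h (Finset.range k) = 0 := by
  induction q with
  | zero => rfl
  | succ q ih =>
    rw [← ih (by omega)]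
    have h1 := Z_swap (h := h) r ρ (i := q) (by omega) (E := Finset.range k) (by
      intro j hj
      have := Finset.mem_range.1 hj
      omega) (j := q) (by omega)
    rw [Equiv.swap_apply_left] at h1
    have h2 : (Finset.range k).image (Equiv.swap q (q + 1)) = Finset.range k := by
      apply Finset.eq_of_subset_of_card_le
      · intro j hj
        obtain ⟨l, hl, rfl⟩ := Finset.mem_image.1 hj
        have hl' := Finset.mem_range.1 hl
        rcases eq_or_ne l q with rfl | h1
        · rw [Equiv.swap_apply_left]; exact Finset.mem_range.2 (by omega)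
        · rcases eq_or_ne l (q + 1) with rfl | h2
          · rw [Equiv.swap_apply_right]; exact Finset.mem_range.2 (by omega)
          · rw [Equiv.swap_apply_of_ne_of_ne h1 h2]; exact hl
      · rw [Finset.card_image_of_injective _ (Equiv.swap q (q + 1)).injective]
    rw [h2] at h1
    exact h1.symm

/-- the elements exchanging `A_i` and `B_i` for `i` in `F` -/
theorem exD (r : HRel N A B al be T tau) (F : Finset ℕ) (hF : ∀ i ∈ F, i < N) :
    ∃ D : G, (∀ i ∈ F, D * A i = B i * D ∧ D * B i = A i * D) ∧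
      ∀ i < N, i ∉ F → Commute D (A i) ∧ Commute D (B i) := by
  induction F using Finset.induction_on with
  | empty => exact ⟨1, fun i hi => absurd hi (Finset.notMem_empty i),
      fun i _ _ => ⟨Commute.one_left _, Commute.one_left _⟩⟩
  | insert p F hp ih =>
    obtain ⟨D, h1, h2⟩ := ih fun i hi => hF i (Finset.mem_insert_of_mem hi)
    have hpN := hF p (Finset.mem_insert_self _ _)
    have br := r.braidAB p hpN
    obtain ⟨Q, hQ⟩ : ∃ Q, Q = A p * B p * A p := ⟨_, rfl⟩
    have d1 : Q * A p = B p * Q := by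
      rw [hQ]
      calc A p * B p * A p * A p = (B p * A p * B p) * A p := by rw [br]
        _ = B p * (A p * B p * A p) := by group
    have d2 : Q * B p = A p * Q := by
      rw [hQ]
      calc A p * B p * A p * B p = A p * (B p * A p * B p) := by group
        _ = A p * (A p * B p * A p) := by rw [br]
    have cA : ∀ i < N, i ≠ p → Commute Q (A i) := by
      intro i hi hip
      rw [hQ]
      exact ((r.commAA p hpN i hi).mul_left (r.commAB i hi p hpN hip).symm).mul_left
        (r.commAA p hpN i hi)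
    have cB : ∀ i < N, i ≠ p → Commute Q (B i) := by
      intro i hi hip
      rw [hQ]
      exact ((r.commAB p hpN i hi hip.symm).mul_left (r.commBB p hpN i hi)).mul_left
        (r.commAB p hpN i hi hip.symm)
    refine ⟨Q * D, ?_, ?_⟩
    · intro i hi
      rcases Finset.mem_insert.1 hi with rfl | hi
      · obtain ⟨c1, c2⟩ := h2 i hpN hp
        constructor
        · rw [mul_assoc, c1.eq, ← mul_assoc, d1, mul_assoc]
        · rw [mul_assoc, c2.eq, ← mul_assoc, d2, mul_assoc]
      · obtain ⟨c1, c2⟩ := h1 i hi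
        have hiN := hF i (Finset.mem_insert_of_mem hi)
        have hip : i ≠ p := fun e => hp (e ▸ hi)
        constructor
        · rw [mul_assoc, c1, ← mul_assoc, (cB i hiN hip).eq, mul_assoc]
        · rw [mul_assoc, c2, ← mul_assoc, (cA i hiN hip).eq, mul_assoc]
    · intro i hiN hi
      rw [Finset.mem_insert, not_or] at hi
      obtain ⟨c1, c2⟩ := h2 i hiN hi.2
      exact ⟨(cA i hiN hi.1).mul_left c1, (cB i hiN hi.1).mul_left c2⟩

end ring

section lin
variable {K V G : Type*} [Field K] [AddCommGroup V] [Module K V] [Group G]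
  {N : ℕ} {A B al be T : ℕ → G} {tau : G}

/-- squares vanish too -/
theorem Z_zero (r : HRel N A B al be T tau)
    (ρ : G →* Module.End K V) {k : ℕ} (hk1 : 1 ≤ k) (hk : k + 2 ≤ N)
    (h2 : X ρ r.commAA (Finset.range (k + 1)) = 0) {E : Finset ℕ} (hE : ∀ i ∈ E, i < N)
    (hc : E.card = k) {p : ℕ} (hp : p ∈ E) : (ρ (A p) - 1) * X ρ r.commAA E = 0 := by
  have r' := mono hk r
  -- the starting point
  have l1 : X ρ r.commAA (Finset.Ico 1 (k + 2)) = 0 := by
    rw [X_move r ρ (fun j hj => by have := Finset.mem_Ico.1 hj; omega), Nat.card_Ico]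
    exact h2
  have l2 : (ρ (A 1) - 1) ^ 1 * Xp ρ (k + 2) A 1 = 0 := by
    have e1 : ((List.range' 1 (k + 1)).map (fun i => ρ (A i) - 1)).prod = 0 := by
      rw [← l1]
      apply X_list
      · intro j hj; have := Finset.mem_Ico.1 hj; omega
      · exact List.nodup_range'
      · intro i
        rw [List.mem_range'_1, Finset.mem_Ico]
        omega
    rw [List.range'_succ, List.map_cons, List.prod_cons] at e1
    unfold Xp
    rw [pow_one, show k + 2 - 1 - 1 = k by omega]
    exact e1
  have l3 := lstep r' ρ 0 1 (by omega) l2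
  have l4 : (ρ (A 2) - 1) * X ρ r.commAA (Finset.Ico 2 (k + 2)) = 0 := by
    have e1 : ((List.range' 2 k).map (fun i => ρ (A i) - 1)).prod =
        X ρ r.commAA (Finset.Ico 2 (k + 2)) := by
      apply X_list
      · intro j hj; have := Finset.mem_Ico.1 hj; omega
      · exact List.nodup_range'
      · intro i
        rw [List.mem_range'_1, Finset.mem_Ico]
        omega
    obtain ⟨m, rfl⟩ : ∃ m, k = m + 1 := ⟨k - 1, by omega⟩
    rw [List.range'_succ, List.map_cons, List.prod_cons] at e1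
    rw [← e1, ← mul_assoc, ← pow_two]
    unfold Xp at l3
    rw [show m + 1 + 2 - 1 - (0 + 2) = m by omega] at l3
    exact l3
  obtain ⟨q0, hq0, h3⟩ := Z_red (h := r.commAA) r ρ (E := Finset.Ico 2 (k + 2)) (by
    intro j hj; have := Finset.mem_Ico.1 hj; omega) (p := 2) (by rw [Finset.mem_Ico]; omega)
  rw [Nat.card_Ico, Nat.add_sub_cancel] at hq0 h3
  have h4 := h3.1 l4
  rw [Z_in r ρ (by omega) hq0] at h4
  obtain ⟨q, hq, h5⟩ := Z_red (h := r.commAA) r ρ hE hp
  rw [hc] at hq h5
  rw [h5, Z_in r ρ (by omega) hq]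
  exact h4

/-- the lower bound -/
theorem choose_le4 [FiniteDimensional K V] (r : HRel N A B al be T tau)
    (ρ : G →* Module.End K V) {k : ℕ} (hk1 : 1 ≤ k) (hk : k + 2 ≤ N)
    (h1 : X ρ r.commAA (Finset.range k) ≠ 0)
    (h2 : X ρ r.commAA (Finset.range (k + 1)) = 0) :
    2 ^ k * (N - 2).choose k ≤ finrank K V := by
  classical
  set S := (Finset.Ico 2 N).powersetCard k with hS
  have hmem : ∀ E ∈ S, (∀ i ∈ E, 2 ≤ i ∧ i < N) ∧ E.card = k := by
    intro E hE
    obtain ⟨ha, hb⟩ := Finset.mem_powersetCard.1 hE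
    exact ⟨fun i hi => Finset.mem_Ico.1 (ha hi), hb⟩
  have hX : ∀ E ∈ S, X ρ r.commAA E ≠ 0 := by
    intro E hE h0
    obtain ⟨ha, hb⟩ := hmem E hE
    rw [X_move r ρ (fun j hj => (ha j hj).2), hb] at h0
    exact h1 h0
  have hu : ∀ E : Finset ℕ, ∃ u : V, E ∈ S → (X ρ r.commBB E * X ρ r.commAA E) u ≠ 0 := by
    intro E
    by_cases hE : E ∈ S
    · have h3 := YX_ne r ρ (hmem E hE).1 (hX E hE) E (le_refl _)
      by_contra hcon
      push Not at hcon
      apply h3
      apply LinearMap.ext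
      intro u
      exact (hcon u).2
    · exact ⟨0, fun h => absurd h hE⟩
  choose u hu using hu
  have hD : ∀ F : Finset ℕ, ∃ D : G, (∀ i ∈ F, i < N) →
      (∀ i ∈ F, D * A i = B i * D ∧ D * B i = A i * D) ∧
      ∀ i < N, i ∉ F → Commute D (A i) ∧ Commute D (B i) := by
    intro F
    by_cases hF : ∀ i ∈ F, i < N
    · obtain ⟨D, hD⟩ := exD r F hF
      exact ⟨D, fun _ => hD⟩
    · exact ⟨1, fun h => absurd h hF⟩
  choose D hD using hD
  have i1 : ∀ x : G, ρ x⁻¹ * ρ x = 1 := fun x => by rw [← map_mul, inv_mul_cancel, map_one]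
  have i2 : ∀ x : G, ρ x * ρ x⁻¹ = 1 := fun x => by rw [← map_mul, mul_inv_cancel, map_one]
  -- the vanishing
  have out : ∀ E ∈ S, ∀ i < N, i ∉ E → (ρ (A i) - 1) * X ρ r.commAA E = 0 ∧
      (ρ (B i) - 1) * X ρ r.commAA E = 0 := by
    intro E hE i hiN hiE
    have hE2 := (hmem E hE).1
    have h3 : (ρ (A i) - 1) * X ρ r.commAA E = 0 := by
      have e := P_insert (f := fN ρ N A) (hc := fN_comm ρ r.commAA) hiE
      rw [fN_lt ρ hiN] at e
      have e' : (ρ (A i) - 1) * X ρ r.commAA E = X ρ r.commAA (insert i E) := e.symm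
      rw [e', X_move r ρ (by
        intro j hj
        rcases Finset.mem_insert.1 hj with rfl | hj
        · exact hiN
        · exact (hE2 j hj).2), Finset.card_insert_of_notMem hiE, (hmem E hE).2]
      exact h2
    refine ⟨h3, ?_⟩
    obtain ⟨Q, hQ⟩ : ∃ Q, Q = A i * B i * A i := ⟨_, rfl⟩
    have d1 : Q * A i = B i * Q := by
      rw [hQ]
      calc A i * B i * A i * A i = (B i * A i * B i) * A i := by rw [r.braidAB i hiN]
        _ = B i * (A i * B i * A i) := by group
    have cD : Commute (ρ Q) (X ρ r.commAA E) := by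
      apply X_comm
      intro j hj hjN
      have hij : j ≠ i := fun e => hiE (e ▸ hj)
      rw [hQ]
      exact ((r.commAA i hiN j hjN).mul_left (r.commAB j hjN i hiN hij).symm).mul_left
        (r.commAA i hiN j hjN)
    have e1 : ρ Q * (ρ (A i) - 1) = (ρ (B i) - 1) * ρ Q := by
      rw [mul_sub, sub_mul, mul_one, one_mul, ← map_mul, ← map_mul, d1]
    have e2 : ρ Q * ((ρ (A i) - 1) * X ρ r.commAA E) =
        (ρ (B i) - 1) * X ρ r.commAA E * ρ Q := by
      rw [← mul_assoc, e1, mul_assoc, cD.eq, mul_assoc]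
    rw [h3, mul_zero] at e2
    calc _ = (ρ (B i) - 1) * X ρ r.commAA E * ρ Q * ρ Q⁻¹ := by
            rw [mul_assoc _ (ρ Q), i2, mul_one]
      _ = 0 := by rw [← e2, zero_mul]
  have inn : ∀ E ∈ S, ∀ i ∈ E, (ρ (A i) - 1) * X ρ r.commAA E = 0 := fun E hE i hi =>
    Z_zero r ρ hk1 hk h2 (fun j hj => ((hmem E hE).1 j hj).2) (hmem E hE).2 hi
  have hcard : (S.sigma (fun E => E.powerset)).card = 2 ^ k * (N - 2).choose k := by
    rw [Finset.card_sigma, Finset.sum_congr rfl (fun E hE => by
      rw [Finset.card_powerset, (hmem E hE).2]), Finset.sum_const, smul_eq_mul, hS,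
      Finset.card_powersetCard, Nat.card_Ico, mul_comm]
  rw [← hcard]
  refine count (S.sigma (fun E => E.powerset))
    (fun z => ρ (D z.2) (X ρ r.commAA z.1 (u z.1)))
    (fun z => ρ (D z.2) * X ρ r.commBB z.1 * ρ (D z.2)⁻¹) ?_ ?_
  · rintro ⟨E, F⟩ hz
    obtain ⟨hE, hF⟩ := Finset.mem_sigma.1 hz
    show (ρ (D F) * X ρ r.commBB E * ρ (D F)⁻¹) (ρ (D F) (X ρ r.commAA E (u E))) ≠ 0
    have e1 : (ρ (D F) * X ρ r.commBB E * ρ (D F)⁻¹) (ρ (D F) (X ρ r.commAA E (u E))) =
        ρ (D F) ((X ρ r.commBB E * X ρ r.commAA E) (u E)) := by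
      have := congrArg (fun z : Module.End K V => ρ (D F) (X ρ r.commBB E (z
        (X ρ r.commAA E (u E))))) (i1 (D F))
      exact this
    rw [e1]
    intro h0
    apply hu E hE
    have h3 := congrArg (fun v => ρ (D F)⁻¹ v) h0
    simp only [map_zero] at h3
    have h4 := LinearMap.congr_fun (i1 (D F)) ((X ρ r.commBB E * X ρ r.commAA E) (u E))
    rw [Module.End.mul_apply, Module.End.one_apply] at h4
    rw [← h4]
    exact h3
  · rintro ⟨E, F⟩ hz ⟨E', F'⟩ hz' hne
    obtain ⟨hE, hF⟩ := Finset.mem_sigma.1 hz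
    obtain ⟨hE', hF'⟩ := Finset.mem_sigma.1 hz'
    simp only [Finset.mem_powerset] at hF hF'
    have hFN : ∀ i ∈ F, i < N := fun i hi => ((hmem E hE).1 i (hF hi)).2
    have hFN' : ∀ i ∈ F', i < N := fun i hi => ((hmem E' hE').1 i (hF' hi)).2
    obtain ⟨a1, a2⟩ := hD F hFN
    obtain ⟨b1, b2⟩ := hD F' hFN'
    show (ρ (D F') * X ρ r.commBB E' * ρ (D F')⁻¹) (ρ (D F) (X ρ r.commAA E (u E))) = 0
    -- it is enough to find `i ∈ E'` and `y` with `y D_F X = 0`
    have key : ∀ i ∈ E', ∀ y : G, y * D F' = D F' * B i →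
        (ρ y - 1) * (ρ (D F) * X ρ r.commAA E) = 0 →
        (ρ (D F') * X ρ r.commBB E' * ρ (D F')⁻¹) (ρ (D F) (X ρ r.commAA E (u E))) = 0 := by
      intro i hi y hy h0
      have hiN := ((hmem E' hE').1 i hi).2
      have e5 : X ρ r.commBB E' = X ρ r.commBB (E'.erase i) * (ρ (B i) - 1) := by
        have e := P_erase (f := fN ρ N B) (hc := fN_comm ρ r.commBB) hi
        have c : Commute (fN ρ N B i) (P (fN ρ N B) (fN_comm ρ r.commBB) (E'.erase i)) :=
          P_comm fun j _ => fN_comm ρ r.commBB i j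
        rw [c.eq, fN_lt ρ hiN] at e
        exact e
      have e6 : (ρ (B i) - 1) * ρ (D F')⁻¹ = ρ (D F')⁻¹ * (ρ y - 1) := by
        have hy2 : B i * (D F')⁻¹ = (D F')⁻¹ * y := by
          rw [eq_inv_mul_iff_mul_eq, ← mul_assoc, ← hy, mul_inv_cancel_right]
        rw [sub_mul, mul_sub, mul_one, one_mul, ← map_mul, ← map_mul, hy2]
      have e7 : ρ (D F') * X ρ r.commBB E' * ρ (D F')⁻¹ * (ρ (D F) * X ρ r.commAA E) = 0 := by
        calc _ = ρ (D F') * X ρ r.commBB (E'.erase i) * ((ρ (B i) - 1) * ρ (D F')⁻¹) *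
              (ρ (D F) * X ρ r.commAA E) := by rw [e5]; simp only [mul_assoc]
          _ = ρ (D F') * X ρ r.commBB (E'.erase i) * ρ (D F')⁻¹ *
              ((ρ y - 1) * (ρ (D F) * X ρ r.commAA E)) := by rw [e6]; simp only [mul_assoc]
          _ = 0 := by rw [h0, mul_zero]
      exact LinearMap.congr_fun e7 (u E)
    have yex : ∀ i ∈ E', ∃ y : G, y * D F' = D F' * B i ∧
        (i ∈ F' → y = A i) ∧ (i ∉ F' → y = B i) := by
      intro i hi
      have hiN := ((hmem E' hE').1 i hi).2
      by_cases hiF : i ∈ F'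
      · exact ⟨A i, (b1 i hiF).2.symm, fun _ => rfl, fun h => absurd hiF h⟩
      · exact ⟨B i, (b2 i hiN hiF).2.symm.eq, fun h => absurd h hiF, fun _ => rfl⟩
    by_cases hEE : E = E'
    · subst hEE
      have hFF : F ≠ F' := fun e => hne (by rw [e])
      -- an element of the symmetric difference
      obtain ⟨i, hi⟩ : ∃ i, ¬ (i ∈ F ↔ i ∈ F') := by
        by_contra hcon
        push Not at hcon
        exact hFF (Finset.ext hcon)
      have hiE : i ∈ E := by
        by_contra hcon
        exact hi ⟨fun h => absurd (hF h) hcon, fun h => absurd (hF' h) hcon⟩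
      have hiN := ((hmem E hE).1 i hiE).2
      obtain ⟨y, hy, hy1, hy2⟩ := yex i hiE
      apply key i hiE y hy
      have h3 : y * D F = D F * A i := by
        by_cases hiF : i ∈ F
        · have hiF' : i ∉ F' := fun h => hi ⟨fun _ => h, fun _ => hiF⟩
          rw [hy2 hiF']
          exact (a1 i hiF).1.symm
        · have hiF' : i ∈ F' := by
            by_contra h
            exact hi ⟨fun h' => absurd h' hiF, fun h' => absurd h' h⟩
          rw [hy1 hiF']
          exact (a2 i hiN hiF).1.symm.eq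
      have e1 : (ρ y - 1) * ρ (D F) = ρ (D F) * (ρ (A i) - 1) := by
        rw [sub_mul, mul_sub, mul_one, one_mul, ← map_mul, ← map_mul, h3]
      rw [← mul_assoc, e1, mul_assoc, inn E hE i hiE, mul_zero]
    · obtain ⟨i, hi, hiE⟩ : ∃ i ∈ E', i ∉ E := by
        by_contra hcon
        push Not at hcon
        exact hEE (Finset.eq_of_subset_of_card_le hcon
          (by rw [(hmem E hE).2, (hmem E' hE').2])).symm
      have hiN := ((hmem E' hE').1 i hi).2
      have hiF : i ∉ F := fun h => hiE (hF h)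
      obtain ⟨y, hy, hy1, hy2⟩ := yex i hi
      apply key i hi y hy
      obtain ⟨o1, o2⟩ := out E hE i hiN hiE
      obtain ⟨c1, c2⟩ := a2 i hiN hiF
      by_cases hiF' : i ∈ F'
      · rw [hy1 hiF']
        have e1 : (ρ (A i) - 1) * ρ (D F) = ρ (D F) * (ρ (A i) - 1) :=
          (((c1.map ρ).sub_right (Commute.one_right _)).eq).symm
        rw [← mul_assoc, e1, mul_assoc, o1, mul_zero]
      · rw [hy2 hiF']
        have e1 : (ρ (B i) - 1) * ρ (D F) = ρ (D F) * (ρ (B i) - 1) :=
          (((c2.map ρ).sub_right (Commute.one_right _)).eq).symm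
        rw [← mul_assoc, e1, mul_assoc, o2, mul_zero]

theorem X_zero4 [IsAlgClosed K] [FiniteDimensional K V] (r : HRel N A B al be T tau)
    (ρ : G →* Module.End K V) {k : ℕ} (hk : 1 ≤ k) (hkN : k + 2 ≤ N)
    (h1 : finrank K V < 2 ^ k * (N - 2).choose k) (h2 : finrank K V < 2 ^ (N - 1 - k)) :
    X ρ r.commAA (Finset.range k) = 0 := by
  classical
  by_contra hne
  have hm : X ρ r.commAA (Finset.range (N - 1 - k)) = 0 := by
    by_contra h3
    have := exp_le r ρ (k := N - 1 - k) (by omega) h3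
    omega
  rcases Nat.lt_or_ge k (N - 1 - k) with h | h
  · have hex : ∃ m, k ≤ m ∧ X ρ r.commAA (Finset.range (m + 1)) = 0 :=
      ⟨N - 2 - k, by omega, by rwa [show N - 2 - k + 1 = N - 1 - k by omega]⟩
    obtain ⟨m, ⟨hm1, hm2⟩, hmin⟩ : ∃ m, (k ≤ m ∧ X ρ r.commAA (Finset.range (m + 1)) = 0) ∧
        ∀ n < m, ¬ (k ≤ n ∧ X ρ r.commAA (Finset.range (n + 1)) = 0) :=
      ⟨Nat.find hex, Nat.find_spec hex, fun n hn => Nat.find_min hex hn⟩
    have hmle : m ≤ N - 2 - k := by
      by_contra hcon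
      exact hmin (N - 2 - k) (by omega) ⟨by omega, by rwa [show N - 2 - k + 1 = N - 1 - k by omega]⟩
    have hm3 : X ρ r.commAA (Finset.range m) ≠ 0 := by
      rcases Nat.eq_or_lt_of_le hm1 with e | hlt
      · rw [← e]; exact hne
      · intro h0
        exact hmin (m - 1) (by omega) ⟨by omega, by rwa [Nat.sub_add_cancel (by omega)]⟩
    have h4 := choose_le4 r ρ (k := m) (by omega) (by omega) hm3 hm2
    have h5 : (N - 2).choose k ≤ (N - 2).choose m := choose_mono' hm1 (by omega)
    have h6 : 2 ^ k ≤ 2 ^ m := Nat.pow_le_pow_right (by omega) hm1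
    have h7 := Nat.mul_le_mul h6 h5
    omega
  · apply hne
    exact P_mono (Finset.range_mono h) hm

end lin

end Pool.Agent.E8helper34.M4
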