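import Mathlib
import Pool.Agent.E8helper34.M4.Cnt

set_option autoImplicit false

/-! The vanishing of products in dimension less than `4 * binom (g - 5) 2`. -/

namespace Pool.Agent.E8helper34.M4

open Pool.Agent.H29R2.MG Pool.Agent.TH35.MG Pool.Agent.R352.MG Pool.Agent.R665.MGR
  Pool.Agent.E8helper34.MC Pool.Agent.H798R3.MG Pool.Agent.Helper950.BG Module
open Pool.Agent.E8helper34.MR (HG tM aM tM_zero setupM twA)

universe u

/-- the bound on the dimension: `4 * binom (g - 5) 2` for `g ≥ 13` -/
abbrev bd (g : ℕ) : ℕ := min (4 * (g - 5).choose 2) (2 ^ (g - 6))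

theorem seven_le {g d : ℕ} (hd : d < bd g) : 7 ≤ g := by
  by_contra hcon
  have h1 : (g - 5).choose 2 = 0 := Nat.choose_eq_zero_of_lt (by omega)
  have h2 := lt_of_lt_of_le hd (min_le_left _ _)
  rw [h1] at h2
  omega

section
variable {g : ℕ} {K V : Type*} [Field K] [AddCommGroup V] [Module K V]

/-- products over two disjoint curves vanish: matrix version over an algebraically closed field -/
theorem prod_alg [IsAlgClosed K] [FiniteDimensional K V] (hd : finrank K V < bd g)
    (ρ : HG g →* Module.End K V) :
    (ρ (tM g 0) - 1) * (ρ (tM g 0) - 1) = 0 ∧ (ρ (aM g 1) - 1) * (ρ (tM g 0) - 1) = 0 := by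
  have hg := seven_le hd
  have hd1 := lt_of_lt_of_le hd (min_le_left _ _)
  have hd2 := lt_of_lt_of_le hd (min_le_right _ _)
  obtain ⟨Γ, A, B, al, be, T, tau, q, r, hA⟩ := setupM hg
  have hq : ∀ i < g - 3, q (A i) = aM g i := by
    intro i hi
    apply Subtype.ext
    rw [hA i hi, twA hg (by omega)]
  set ρ' := ρ.comp q with hρ
  have h0 : X ρ' r.commAA (Finset.range 2) = 0 := by
    refine X_zero4 r _ (by omega) (by omega) ?_ ?_
    · rw [show g - 3 - 2 = g - 5 by omega]
      exact hd1
    · rw [show g - 3 - 1 - 2 = g - 6 by omega]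
      exact hd2
  constructor
  · have h3 := unip_zero (mono (N' := 2 + 2) (by omega) r) (by omega) ρ' (by
      intro l hnd hl
      rw [X_list ρ' r.commAA (E := Finset.Ico 2 (2 + 2)) (fun i hi => by
        have := Finset.mem_Ico.1 hi; omega) hnd (fun i => by rw [hl, Finset.mem_Ico]),
        X_move r ρ' (fun i hi => by have := Finset.mem_Ico.1 hi; omega), Nat.card_Ico,
        Nat.add_sub_cancel]
      exact h0)
    rw [Nat.add_sub_cancel, pow_two, hρ, MonoidHom.comp_apply, hq 0 (by omega)] at h3
    rw [tM_zero (by omega)]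
    exact h3
  · have h4 := X_list ρ' r.commAA (E := {1, 0}) (by
      intro i hi
      simp only [Finset.mem_insert, Finset.mem_singleton] at hi
      omega) (l := [1, 0]) (by simp) (by intro i; simp)
    have h5 := (X_move (h := r.commAA) r ρ' (E := {1, 0}) (by
      intro i hi
      simp only [Finset.mem_insert, Finset.mem_singleton] at hi
      omega)).2 (by
        rw [Finset.card_pair (by omega)]
        exact h0)
    rw [h5] at h4
    simp only [List.map_cons, List.map_nil, List.prod_cons, List.prod_nil, mul_one] at h4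
    rw [hρ, MonoidHom.comp_apply, MonoidHom.comp_apply, hq 0 (by omega), hq 1 (by omega)] at h4
    rw [tM_zero (by omega)]
    exact h4

end

end Pool.Agent.E8helper34.M4
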