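import Mathlib
import Pool.Agent.E8helper34.M4.Rep
import Pool.Agent.E8helper34.MC.S3

set_option autoImplicit false

/-! The extension of the homology by a trivial module splits, over Humphries' group. -/

namespace Pool.Agent.E8helper34.M4

open Pool.Agent.E8helper34.MR

open Pool.Agent.H29R2.MG Pool.Agent.TH35.MG Pool.Agent.R352.MG Pool.Agent.R665.MGR
open Pool.Agent.E8helper34.MC (yy_mem ww_down ww_far ww_Efar zz zz_mem us_of US TA TA_step Zw Fw
  ww_mem_WW WW decomp rr_bot ww_zero_all N_Vinv)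
open Module

section
variable {g : ℕ} {K V : Type*} [Field K] [AddCommGroup V] [Module K V]
  (hg : 7 ≤ g) (ρ : HG g →* Module.End K V) (r : NRel (2 * g) (Nf ρ) (Ef ρ))

include hg r in
theorem usf {y : V} (hy : y ∈ Vim (2 * g) (Nf ρ) (Ef ρ)) :
    US (2 * g) (fun j => ρ (tM g j)) (ρ (aM g 1)) (ww (Nf ρ) y) (zz (Nf ρ) (Ef ρ) y) :=
  us_of r (by omega) hy

include hg r in
/-- the action of all the twists about `a_m` -/
theorem all_TA {y : V} (hy : y ∈ Vim (2 * g) (Nf ρ) (Ef ρ)) :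
    ∀ m < g, TA (2 * g) (ww (Nf ρ) y) (zz (Nf ρ) (Ef ρ) y) m (ρ (aM g m)) := by
  have u := usf hg ρ r hy
  intro m
  induction m using Nat.strong_induction_on with
  | _ m ih =>
    intro hm
    rcases Nat.lt_or_ge m 2 with h | h
    · interval_cases m
      · rw [← tM_zero (by omega)]
        refine ⟨?_, ?_, u.Tz 0 (by omega)⟩
        · have h1 := u.down 0 (by omega)
          rw [h1]
          simp [uu]
        · intro j hj hne
          exact u.far 0 (by omega) j hj (by omega) (by omega)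
      · refine ⟨?_, ?_, u.Ez⟩
        · have h1 := u.E3
          rw [h1]
          simp [uu]
        · intro j hj hne
          exact u.Ef j hj (by omega)
    · obtain ⟨p, rfl⟩ : ∃ p, m = p + 2 := ⟨m - 2, by omega⟩
      refine TA_step u (p := p) (by omega) (by omega) (ih p (by omega) (by omega))
        (ih (p + 1) (by omega) (by omega)) (fun j _ => rho_inj ρ _) (rho_inj ρ _) ?_
      intro v
      have h1 := congrArg (fun x => ρ x v) (relZM (g := g) hm)
      simp only [Zw, rho_mul_apply] at h1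
      exact h1

/-- the operator of the hyperelliptic involution -/
def Jf (ρ : HG g →* Module.End K V) : Module.End K V := ρ (hM g)

include hg in
theorem J_J (v : V) : Jf ρ (Jf ρ v) = v := by
  unfold Jf
  rw [← rho_mul_apply, hM_mul_self (by omega), rho_one_apply]

include hg in
theorem J_N {j : ℕ} (hj : j < 2 * g) (v : V) : Jf ρ (Nf ρ j v) = Nf ρ j (Jf ρ v) := by
  unfold Jf Nf
  rw [LinearMap.sub_apply, LinearMap.sub_apply, map_sub, ← rho_mul_apply, ← rho_mul_apply,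
    hM_tM (by omega) hj]
  rfl

include hg in
theorem J_yy (y : V) {j : ℕ} (hj : j ≤ 2 * g) :
    Jf ρ (yy (Nf ρ) y j) = yy (Nf ρ) (Jf ρ y) j := by
  induction j with
  | zero => rfl
  | succ j ih =>
    show Jf ρ (- Nf ρ j (yy (Nf ρ) y j)) = - Nf ρ j (yy (Nf ρ) (Jf ρ y) j)
    rw [map_neg, J_N hg ρ (by omega), ih (by omega)]

include hg in
theorem J_ww (y : V) {j : ℕ} (hj : j < 2 * g) :
    Jf ρ (ww (Nf ρ) y j) = ww (Nf ρ) (Jf ρ y) j := by
  unfold ww
  rw [J_N hg ρ hj, J_yy hg ρ y (by omega)]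

include hg in
theorem J_uu (y : V) {m : ℕ} (hm : 2 * m < 2 * g) :
    Jf ρ (uu (ww (Nf ρ) y) m) = uu (ww (Nf ρ) (Jf ρ y)) m := by
  induction m with
  | zero => exact J_ww hg ρ y (by omega)
  | succ m ih =>
    show Jf ρ (uu (ww (Nf ρ) y) m + ww (Nf ρ) y (2 * m + 2)) = _ + _
    rw [map_add, ih (by omega), J_ww hg ρ y (by omega)]

include hg r in
/-- the action of the involution on the defect -/
theorem J_zz {y : V} (hy : y ∈ Vim (2 * g) (Nf ρ) (Ef ρ))
    (hJ : Jf ρ y ∈ Vim (2 * g) (Nf ρ) (Ef ρ)) :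
    Jf ρ (zz (Nf ρ) (Ef ρ) y) = - zz (Nf ρ) (Ef ρ) (Jf ρ y) := by
  have u := usf hg ρ r hy
  have u' := usf hg ρ r hJ
  have hz := zz_mem r (by omega) hy
  have h1 := fixf ρ (by omega) (hM g * aM g 1 * hM g) _ hz
  have h4 := congrArg (fun x => ρ x (ww (Nf ρ) (Jf ρ y) 3)) (fourM (g := g) (by omega))
  simp only [rho_mul_apply] at h4 h1
  change Jf ρ (ρ (aM g 1) (Jf ρ _)) = _ at h1
  change _ = ρ (aM g 1) (Jf ρ (ρ (aM g 1) (Jf ρ _))) at h4
  -- the right side
  have e1 : Jf ρ (ww (Nf ρ) (Jf ρ y) 3) = ww (Nf ρ) y 3 := by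
    rw [J_ww hg ρ _ (by omega), J_J hg]
  have e2 : ρ (aM g 1) (Jf ρ (zz (Nf ρ) (Ef ρ) y)) = Jf ρ (zz (Nf ρ) (Ef ρ) y) := by
    have h2 := congrArg (Jf ρ) h1
    rw [J_J hg] at h2
    exact h2
  rw [e1, u.E3] at h4
  simp only [map_add] at h4
  rw [J_ww hg ρ y (j := 3) (by omega), J_ww hg ρ y (j := 0) (by omega),
    J_ww hg ρ y (j := 2) (by omega),
    u'.E3, u'.Ef 0 (by omega) (by omega), u'.Ef 2 (by omega) (by omega), e2] at h4
  -- the left side
  have a03 := u'.far 0 (by omega) 3 (by omega) (by omega) (by omega)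
  have a13 := u'.far 1 (by omega) 3 (by omega) (by omega) (by omega)
  have a23 := u'.down 2 (by omega)
  have a00 := u'.far 0 (by omega) 0 (by omega) (by omega) (by omega)
  have a10 := u'.up 0 (by omega)
  have a20 := u'.far 2 (by omega) 0 (by omega) (by omega) (by omega)
  have a01 := u'.down 0 (by omega)
  have a11 := u'.far 1 (by omega) 1 (by omega) (by omega) (by omega)
  have a21 := u'.up 1 (by omega)
  have a02 := u'.far 0 (by omega) 2 (by omega) (by omega) (by omega)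
  have a12 := u'.down 1 (by omega)
  have a22 := u'.far 2 (by omega) 2 (by omega) (by omega) (by omega)
  simp only [zero_add, show 1 + 1 = 2 from rfl, show 2 + 1 = 3 from rfl] at *
  simp only [a03, a13, a23, a00, a10, a20, a01, a11, a21, a02, a12, a22, map_add, map_sub] at h4
  generalize ww (Nf ρ) (Jf ρ y) 0 = w0 at *
  generalize ww (Nf ρ) (Jf ρ y) 1 = w1 at *
  generalize ww (Nf ρ) (Jf ρ y) 2 = w2 at *
  generalize ww (Nf ρ) (Jf ρ y) 3 = w3 at *
  generalize zz (Nf ρ) (Ef ρ) (Jf ρ y) = z' at *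
  generalize Jf ρ (zz (Nf ρ) (Ef ρ) y) = z at *
  have h6 := sub_eq_zero.2 h4
  have h5 : z + z' = 0 := by
    rw [← neg_zero, ← h6]
    abel
  exact eq_neg_of_add_eq_zero_left h5

include hg r in
theorem J_last {y : V} (hy : y ∈ Vim (2 * g) (Nf ρ) (Ef ρ))
    (hJ : Jf ρ y ∈ Vim (2 * g) (Nf ρ) (Ef ρ)) :
    ((g - 1 : ℕ) : ℤ) • Jf ρ (zz (Nf ρ) (Ef ρ) y) =
      ((g - 1 : ℕ) : ℤ) • zz (Nf ρ) (Ef ρ) (Jf ρ y) := by
  have a := all_TA hg ρ r hy (g - 1) (by omega)
  have a' := all_TA hg ρ r hJ (g - 1) (by omega)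
  have h1 := congrArg (fun x => ρ x (ww (Nf ρ) y (2 * (g - 1) + 1)))
    (hM_last (g := g) (by omega))
  simp only [rho_mul_apply] at h1
  change Jf ρ _ = ρ (aM g (g - 1)) (Jf ρ _) at h1
  rw [a.val, map_add, map_add, map_zsmul, J_ww hg ρ _ (by omega), J_uu hg ρ _ (by omega),
    a'.val] at h1
  have h2 := add_left_cancel h1
  exact add_left_cancel h2

include hg r in
/-- the defect vanishes on the image of `t_1 - 1` -/
theorem zz_N1 (hK : ((2 * g - 2 : ℕ) : K) ≠ 0) (v : V) :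
    zz (Nf ρ) (Ef ρ) (Nf ρ 1 v) = 0 := by
  have m1 : Nf ρ 1 v ∈ Vim (2 * g) (Nf ρ) (Ef ρ) := N_mem_Vim (by omega) _
  have m2 : Jf ρ (Nf ρ 1 v) ∈ Vim (2 * g) (Nf ρ) (Ef ρ) := by
    rw [J_N hg ρ (by omega)]
    exact N_mem_Vim (by omega) _
  have m3 : Jf ρ (Jf ρ (Nf ρ 1 v)) ∈ Vim (2 * g) (Nf ρ) (Ef ρ) := by rwa [J_J hg]
  have h1 := J_zz hg ρ r m2 m3
  have h2 := J_last hg ρ r m2 m3
  rw [J_J hg] at h1 h2
  rw [h1] at h2
  have h3 : ((2 * g - 2 : ℕ) : K) • zz (Nf ρ) (Ef ρ) (Nf ρ 1 v) = 0 := by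
    have e : ((2 * g - 2 : ℕ) : K) = (((g - 1 : ℕ) : ℤ) : K) + (((g - 1 : ℕ) : ℤ) : K) := by
      have : 2 * g - 2 = (g - 1) + (g - 1) := by omega
      rw [this]
      push_cast
      ring
    rw [e, add_smul, Int.cast_smul_eq_zsmul]
    rw [smul_neg] at h2
    exact neg_eq_iff_add_eq_zero.1 h2
  exact (smul_eq_zero.1 h3).resolve_left hK

theorem ww_eq_of_zero {y y' : V} (h : Nf ρ 0 y = Nf ρ 0 y') (j : ℕ) :
    ww (Nf ρ) y j = ww (Nf ρ) y' j := by
  induction j with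
  | zero => exact h
  | succ j ih =>
    have h1 := ww_succ (N := Nf ρ) y j
    have h2 := ww_succ (N := Nf ρ) y' j
    rw [ih, h2] at h1
    exact (neg_injective h1).symm

include hg r in
/-- the defect vanishes -/
theorem zz_zero (hK : ((2 * g - 2 : ℕ) : K) ≠ 0) {y : V}
    (hy : y ∈ Vim (2 * g) (Nf ρ) (Ef ρ)) : zz (Nf ρ) (Ef ρ) y = 0 := by
  have h1 := X_kill r (by omega) (j := 0) (by omega) hy
  have h2 : Nf ρ 0 y = Nf ρ 0 (Nf ρ 1 (- Nf ρ 0 y)) := by
    rw [map_neg, map_neg]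
    exact eq_neg_of_add_eq_zero_left h1
  have h3 : zz (Nf ρ) (Ef ρ) y = zz (Nf ρ) (Ef ρ) (Nf ρ 1 (- Nf ρ 0 y)) := by
    unfold zz
    rw [ww_eq_of_zero ρ h2, ww_eq_of_zero ρ h2, ww_eq_of_zero ρ h2]
  rw [h3]
  exact zz_N1 hg ρ r hK _

/-! ### Perfectness -/

/-- `x` moves `t` by `k D` and fixes `D` -/
def Ac (ρ : HG g →* Module.End K V) (t D : V) (x : HG g) (k : ℤ) : Prop :=
  ρ x t = t + k • D ∧ ρ x D = D

variable {ρ}

theorem Ac.mul {t D : V} {x y : HG g} {k l : ℤ} (h1 : Ac ρ t D x k) (h2 : Ac ρ t D y l) :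
    Ac ρ t D (x * y) (k + l) := by
  refine ⟨?_, ?_⟩
  · rw [rho_mul_apply, h2.1, map_add, map_zsmul, h1.1, h1.2]
    module
  · rw [rho_mul_apply, h2.2, h1.2]

theorem Ac.inv {t D : V} {x : HG g} {k : ℤ} (h1 : Ac ρ t D x k) : Ac ρ t D x⁻¹ (-k) := by
  have hD : ρ x⁻¹ D = D := by
    apply rho_inj ρ x
    rw [rho_apply_inv, h1.2]
  refine ⟨?_, hD⟩
  apply rho_inj ρ x
  rw [rho_apply_inv, map_add, map_zsmul, h1.1, h1.2]
  module

theorem Ac.eq {t D : V} {x : HG g} {k l : ℤ} (h1 : Ac ρ t D x k) (h2 : Ac ρ t D x l) :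
    (k - l) • D = 0 := by
  have h3 := h1.1.symm.trans h2.1
  have h4 := add_left_cancel h3
  rw [sub_smul, h4, sub_self]

include hg r in
/-- perfectness of Humphries' group -/
theorem perf {t : V} (h1 : ∀ j < 2 * g, Nf ρ j t ∈ Vinv (2 * g) (Nf ρ) (Ef ρ))
    (h2 : Ef ρ t ∈ Vinv (2 * g) (Nf ρ) (Ef ρ)) : t ∈ Vinv (2 * g) (Nf ρ) (Ef ρ) := by
  obtain ⟨D, hD⟩ : ∃ D, D = Nf ρ 0 t := ⟨_, rfl⟩
  have hDm : D ∈ Vinv (2 * g) (Nf ρ) (Ef ρ) := hD ▸ h1 0 (by omega)
  have hN : ∀ j < 2 * g, Nf ρ j t = D := by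
    intro j
    induction j with
    | zero => intro _; exact hD.symm
    | succ j ih =>
      intro hj
      have h3 := r.br j hj t
      rw [N_Vinv (h1 j (by omega)) hj, N_Vinv (h1 (j + 1) hj) (by omega), map_zero, map_zero,
        add_zero, add_zero, ih (by omega)] at h3
      exact h3.symm
  have hE : Ef ρ t = D := by
    have h3 := r.brE t
    rw [(mem_Vinv.1 (h1 3 (by omega))).2, N_Vinv h2 (by omega), map_zero, map_zero,
        add_zero, add_zero, hN 3 (by omega)] at h3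
    exact h3.symm
  have hfix := fun x => fixf ρ (by omega) x D hDm
  have aT : ∀ j < 2 * g, Ac ρ t D (tM g j) 1 := by
    intro j hj
    refine ⟨?_, hfix _⟩
    have h3 : ρ (tM g j) t - t = D := hN j hj
    rw [one_smul, ← h3]
    abel
  have a1 : Ac ρ t D (aM g 1) 1 := by
    refine ⟨?_, hfix _⟩
    have h3 : ρ (aM g 1) t - t = D := hE
    rw [one_smul, ← h3]
    abel
  have a0 : Ac ρ t D (aM g 0) 1 := by
    rw [← tM_zero (by omega)]
    exact aT 0 (by omega)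
  have b0 := aT 1 (by omega)
  have c1 := aT 2 (by omega)
  have b1 := aT 3 (by omega)
  have c2 := aT 4 (by omega)
  have b2 := aT 5 (by omega)
  have t0 := aT 0 (by omega)
  -- the product `Z`
  have z := (((((((((((((((b0.mul c1).mul b1).mul a1).mul c2).mul b1).mul b2).mul c2).mul
    c1).mul b1).mul a1).mul b0).mul c1).mul b1).mul c2).mul b2)
  have hrel := relZM (g := g) (p := 0) (by omega)
  simp only [mul_zero, zero_add] at hrel
  have a2 : Ac ρ t D (aM g 2) 1 := by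
    have e : aM g 2 = (Zw (tM g 1) (tM g 2) (tM g 3) (aM g 1) (tM g 4) (tM g 5))⁻¹ *
        (aM g 0 * Zw (tM g 1) (tM g 2) (tM g 3) (aM g 1) (tM g 4) (tM g 5)) := by
      rw [hrel]; group
    rw [e]
    have h3 := z.inv.mul (a0.mul z)
    have e2 : (-(1 + 1 + 1 + 1 + 1 + 1 + 1 + 1 + 1 + 1 + 1 + 1 + 1 + 1 + 1 + 1) + (1 +
      (1 + 1 + 1 + 1 + 1 + 1 + 1 + 1 + 1 + 1 + 1 + 1 + 1 + 1 + 1 + 1)) : ℤ) = 1 := by norm_num
    rw [e2] at h3
    exact h3
  -- the star relation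
  have w := ((c1.mul c2).mul a1).mul b1
  have F := (((w.mul w).mul w).mul a0.inv).mul a2.inv
  have hF : Ac ρ t D (Fw (tM g 2) (tM g 4) (aM g 1) (tM g 3) (aM g 0) (aM g 2)) 10 := by
    have e2 : (1 + 1 + 1 + 1 + (1 + 1 + 1 + 1) + (1 + 1 + 1 + 1) + -1 + -1 : ℤ) = 10 := by
      norm_num
    rw [e2] at F
    exact F
  have l1 := (hF.mul b0).mul hF
  rw [relFM (by omega)] at l1
  have l2 := l1.eq ((b0.mul hF).mul b0)
  -- the chain relation
  have w3 := (t0.mul b0).mul c1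
  have w12 := (w3.mul w3).mul (w3.mul w3)
  have h4 := fourM (g := g) (by omega)
  have hE' : Ac ρ t D (hM g * aM g 1 * hM g) 11 := by
    have e : hM g * aM g 1 * hM g = (aM g 1)⁻¹ *
      (tM g 0 * tM g 1 * tM g 2 * (tM g 0 * tM g 1 * tM g 2) *
        (tM g 0 * tM g 1 * tM g 2 * (tM g 0 * tM g 1 * tM g 2))) := by
      rw [h4]; group
    rw [e]
    have h5 := a1.inv.mul w12
    have e2 : (-1 + (1 + 1 + 1 + (1 + 1 + 1) + (1 + 1 + 1 + (1 + 1 + 1))) : ℤ) = 11 := by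
      norm_num
    rw [e2] at h5
    exact h5
  have hb : tM g 3 * (hM g * aM g 1 * hM g) * tM g 3 =
      (hM g * aM g 1 * hM g) * tM g 3 * (hM g * aM g 1 * hM g) := by
    have hbr := (humM (g := g) (by omega)).braidE
    have hs := hM_mul_self (g := g) (by omega)
    have hc := hM_tM (g := g) (by omega) (j := 3) (by omega)
    calc tM g 3 * (hM g * aM g 1 * hM g) * tM g 3
        = (tM g 3 * hM g) * aM g 1 * (hM g * tM g 3) := by group
      _ = (hM g * tM g 3) * aM g 1 * (tM g 3 * hM g) := by rw [hc]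
      _ = hM g * (tM g 3 * aM g 1 * tM g 3) * hM g := by group
      _ = hM g * (aM g 1 * tM g 3 * aM g 1) * hM g := by rw [hbr]
      _ = hM g * aM g 1 * (hM g * hM g) * tM g 3 * aM g 1 * hM g := by rw [hs]; group
      _ = hM g * aM g 1 * hM g * (hM g * tM g 3) * aM g 1 * hM g := by group
      _ = hM g * aM g 1 * hM g * (tM g 3 * hM g) * aM g 1 * hM g := by rw [hc]
      _ = _ := by group
  have l3 := (b1.mul hE').mul b1
  rw [hb] at l3
  have l4 := l3.eq ((hE'.mul b1).mul hE')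
  have hD0 : D = 0 := by
    have e1 : ((10 + 1 + 10) - (1 + 10 + 1) : ℤ) = 9 := by norm_num
    have e2 : ((1 + 11 + 1) - (11 + 1 + 11) : ℤ) = -10 := by norm_num
    rw [e1] at l2
    rw [e2] at l4
    have e3 : D = -((-10 : ℤ) • D) - (9 : ℤ) • D := by module
    rw [e3, l2, l4]
    simp
  rw [mem_Vinv]
  refine ⟨fun j hj => by rw [hN j hj, hD0], by rw [hE, hD0]⟩

end

end Pool.Agent.E8helper34.M4
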