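import Mathlib
import Pool.Agent.E8helper34.M4.S1

set_option autoImplicit false

/-! Duality and the decomposition of the representation. -/

namespace Pool.Agent.E8helper34.M4

open Pool.Agent.E8helper34.MR

open Pool.Agent.H29R2.MG Pool.Agent.TH35.MG Pool.Agent.R352.MG Pool.Agent.R665.MGR
open Pool.Agent.E8helper34.MC (yy_mem ww_down ww_far ww_Efar zz zz_mem us_of US TA TA_step Zw Fw
  ww_mem_WW WW decomp rr_bot ww_zero_all N_Vinv)
open Module

section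
variable {g : ℕ} {K V : Type*} [Field K] [AddCommGroup V] [Module K V]

/-- the contragredient representation -/
def dualRep (ρ : HG g →* Module.End K V) : HG g →* Module.End K (Dual K V) where
  toFun x := LinearMap.dualMap (ρ x⁻¹)
  map_one' := by
    rw [inv_one, map_one]
    exact LinearMap.dualMap_id
  map_mul' x y := by
    rw [mul_inv_rev, map_mul]
    apply LinearMap.ext
    intro ξ
    rfl

theorem dualRep_apply (ρ : HG g →* Module.End K V) (x : HG g) (ξ : Dual K V) (v : V) :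
    dualRep ρ x ξ v = ξ (ρ x⁻¹ v) := rfl

theorem inv_sub {ρ : HG g →* Module.End K V} {x : HG g}
    (h : ∀ v, (ρ x - 1) ((ρ x - 1) v) = 0) (v : V) : ρ x⁻¹ v = v - (ρ x - 1) v := by
  have h1 : ρ x (v - (ρ x - 1) v) = v := by
    have h2 := h v
    have h3 : ρ x (v - (ρ x - 1) v) =
        v - (ρ x - 1) ((ρ x - 1) v) := by
      simp only [LinearMap.sub_apply, Module.End.one_apply, map_sub]
      abel
    rw [h3, h2, sub_zero]
  have h2 := rho_inv_apply ρ x (v - (ρ x - 1) v)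
  rwa [h1] at h2

variable (hg : 7 ≤ g) (ρ : HG g →* Module.End K V) (r : NRel (2 * g) (Nf ρ) (Ef ρ))

include r in
theorem dual_N {j : ℕ} (hj : j < 2 * g) (ξ : Dual K V) (v : V) :
    Nf (dualRep ρ) j ξ v = - ξ (Nf ρ j v) := by
  have h1 := inv_sub (ρ := ρ) (x := tM g j) (r.sq j hj) v
  show dualRep ρ (tM g j) ξ v - ξ v = - ξ (Nf ρ j v)
  rw [dualRep_apply, h1, map_sub]
  unfold Nf
  abel

include r in
theorem dual_E (ξ : Dual K V) (v : V) : Ef (dualRep ρ) ξ v = - ξ (Ef ρ v) := by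
  have h1 := inv_sub (ρ := ρ) (x := aM g 1) r.sqE v
  show dualRep ρ (aM g 1) ξ v - ξ v = - ξ (Ef ρ v)
  rw [dualRep_apply, h1, map_sub]
  unfold Ef
  abel

include hg r in
theorem S1vec (hK : ((2 * g - 2 : ℕ) : K) ≠ 0) {y : V}
    (hy : y ∈ Vim (2 * g) (Nf ρ) (Ef ρ)) :
    Ef ρ (Nf ρ 3 (Nf ρ 2 (Nf ρ 1 (Nf ρ 0 y)))) + Nf ρ 0 y + Nf ρ 2 (Nf ρ 1 (Nf ρ 0 y)) = 0 := by
  have h := zz_zero hg ρ r hK hy
  unfold zz at h
  have e0 : ww (Nf ρ) y 0 = Nf ρ 0 y := rfl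
  have e2 : ww (Nf ρ) y 2 = Nf ρ 2 (- Nf ρ 1 (- Nf ρ 0 y)) := rfl
  have e3 : ww (Nf ρ) y 3 = Nf ρ 3 (- Nf ρ 2 (- Nf ρ 1 (- Nf ρ 0 y))) := rfl
  rw [e0, e2, e3] at h
  simp only [map_neg, neg_neg] at h
  have h2 := neg_eq_zero.2 h
  rw [← h2]
  abel

/-- the dual statement -/
theorem S2 [FiniteDimensional K V] (hd : finrank K V < bd g)
    (hK : ((2 * g - 2 : ℕ) : K) ≠ 0) (v : V) :
    Nf ρ 0 (Nf ρ 1 (Nf ρ 2 (Nf ρ 3 (Ef ρ v)))) + Nf ρ 0 v + Nf ρ 0 (Nf ρ 1 (Nf ρ 2 v)) ∈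
      Vinv (2 * g) (Nf ρ) (Ef ρ) := by
  have hg := seven_le hd
  have r := relf hd ρ
  have hd' : finrank K (Dual K V) < bd g := by
    rw [Subspace.dual_finrank_eq]
    exact hd
  have r' := relf hd' (dualRep ρ)
  have key : ∀ X : Module.End K V, (∀ ξ : Dual K V, ∃ y ∈ Vim (2 * g) (Nf (dualRep ρ))
      (Ef (dualRep ρ)), ∀ w, y w = - ξ (X w)) →
      X (Nf ρ 0 (Nf ρ 1 (Nf ρ 2 (Nf ρ 3 (Ef ρ v)))) + Nf ρ 0 v + Nf ρ 0 (Nf ρ 1 (Nf ρ 2 v))) =
        0 := by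
    intro X hX
    rw [← Module.forall_dual_apply_eq_zero_iff K]
    intro ξ
    obtain ⟨y, hy, h1⟩ := hX ξ
    have h2 := LinearMap.congr_fun (S1vec hg (dualRep ρ) r' hK hy) v
    rw [LinearMap.add_apply, LinearMap.add_apply, LinearMap.zero_apply, dual_E ρ r,
      dual_N ρ r (by omega), dual_N ρ r (by omega), dual_N ρ r (by omega),
      dual_N ρ r (by omega), dual_N ρ r (by omega), dual_N ρ r (by omega),
      dual_N ρ r (by omega), dual_N ρ r (by omega)] at h2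
    simp only [h1] at h2
    rw [map_add, map_add, map_add, map_add]
    rw [← h2]
    abel
  rw [mem_Vinv]
  refine ⟨?_, ?_⟩
  · intro j hj
    apply key
    intro ξ
    exact ⟨_, N_mem_Vim hj ξ, fun w => dual_N ρ r hj ξ w⟩
  · apply key
    intro ξ
    exact ⟨_, E_mem_Vim ξ, fun w => dual_E ρ r ξ w⟩

/-- the decomposition -/
theorem decompf [FiniteDimensional K V] (hd : finrank K V < bd g)
    (hK : ((2 * g - 2 : ℕ) : K) ≠ 0) (v : V) :
    ∃ w ∈ WW (2 * g) (Nf ρ) (Ef ρ), v - w ∈ Vinv (2 * g) (Nf ρ) (Ef ρ) :=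
  decomp (by have := seven_le hd; omega) (relf hd ρ)
    (fun _ hy => zz_zero (seven_le hd) ρ (relf hd ρ) hK hy)
    (fun v => S2 ρ hd hK v) (fun _ h1 h2 => perf (seven_le hd) (relf hd ρ) h1 h2) v

end

end Pool.Agent.E8helper34.M4
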