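import Mathlib
import Pool.Agent.E8helper34.M4.S2

set_option autoImplicit false

/-! The action on homology as a matrix representation. -/

namespace Pool.Agent.E8helper34.M4

open Pool.Agent.E8helper34.MR

open Pool.Agent.H29R2.MG Pool.Agent.TH35.MG Pool.Agent.R352.MG Pool.Agent.R665.MGR
open Pool.Agent.E8helper34.MC (yy_mem ww_down ww_far ww_Efar zz zz_mem us_of US TA TA_step Zw Fw
  ww_mem_WW WW decomp rr_bot ww_zero_all N_Vinv)
open Module Matrix

section
variable {g : ℕ}

/-- the matrix of an automorphism on homology -/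
def Ho (g : ℕ) (φ : orientedAut g) : Matrix (Fin g ⊕ Fin g) (Fin g ⊕ Fin g) ℤ :=
  Matrix.of fun k l => homologyClass (φ.1 (gen l)) k

theorem hc_gen (k : Fin g ⊕ Fin g) : homologyClass (gen k : SurfaceGroup g) = Pi.single k 1 := by
  rcases k with m | m
  · exact hc_fa m
  · exact hc_fb m

theorem Ho_vec (φ : orientedAut g) (y : SurfaceGroup g) :
    homologyClass (φ.1 y) = (Ho g φ) *ᵥ (homologyClass y) := by
  obtain ⟨x, rfl⟩ := mk_surjective g y
  induction x using FreeGroup.induction_on with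
  | C1 => rw [map_one, map_one, hc_one, mulVec_zero]
  | of j =>
    have h : (mk g (FreeGroup.of j) : SurfaceGroup g) = gen j := rfl
    rw [h, hc_gen]
    funext k
    rw [mulVec_single_one]
    rfl
  | inv_of j h => rw [map_inv, map_inv, hc_inv, h, hc_inv, mulVec_neg]
  | mul x y hx hy => rw [map_mul, map_mul, hc_mul, hx, hy, hc_mul, mulVec_add]

/-- the matrix representation of the oriented automorphisms -/
def HoHom (g : ℕ) : orientedAut g →* Matrix (Fin g ⊕ Fin g) (Fin g ⊕ Fin g) ℤ where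
  toFun := Ho g
  map_one' := by
    ext k l
    show homologyClass (gen l) k = _
    rw [hc_gen, Matrix.one_apply]
    by_cases h : k = l
    · subst h; simp
    · rw [Pi.single_eq_of_ne h, if_neg h]
  map_mul' φ ψ := by
    ext k l
    show homologyClass (φ.1 (ψ.1 (gen l))) k = _
    rw [Ho_vec]
    rfl

/-- the matrix representation of the mapping class group -/
def Hm (g : ℕ) : Mod g →* Matrix (Fin g ⊕ Fin g) (Fin g ⊕ Fin g) ℤ :=
  QuotientGroup.lift (innerAut g) (HoHom g) (by
    intro φ hφ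
    rw [MonoidHom.mem_ker, ← map_one (HoHom g)]
    ext k l
    have h1 : classOf g φ = classOf g 1 := by
      apply QuotientGroup.eq.2
      rw [mul_one]
      exact inv_mem hφ
    exact congrFun (hc_class h1 (gen l)) k)

theorem Hm_class (φ : orientedAut g) : Hm g (classOf g φ) = Ho g φ := rfl

/-- the matrix representation of Humphries' group -/
def HM (g : ℕ) : HG g →* Matrix (Fin g ⊕ Fin g) (Fin g ⊕ Fin g) ℤ :=
  (Hm g).comp (Humphries g).subtype

theorem HM_class {x : HG g} {φ : orientedAut g} (h : classOf g φ = x) : HM g x = Ho g φ := by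
  show Hm g x = _
  rw [← h]
  rfl

/-- the matrix representation over a ring -/
def HR (g : ℕ) (R : Type*) [CommRing R] : HG g →* Matrix (Fin g ⊕ Fin g) (Fin g ⊕ Fin g) R :=
  (((Int.castRingHom R).mapMatrix :
    Matrix (Fin g ⊕ Fin g) (Fin g ⊕ Fin g) ℤ →+* _) : _ →* _).comp (HM g)

theorem HR_apply {R : Type*} [CommRing R] (x : HG g) (k l : Fin g ⊕ Fin g) :
    HR g R x k l = ((HM g x k l : ℤ) : R) := rfl

theorem HR_map {R S : Type*} [CommRing R] [CommRing S] (π : R →+* S) (x : HG g) :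
    (HR g R x).map π = HR g S x := by
  ext k l
  rw [Matrix.map_apply, HR_apply, HR_apply, map_intCast]

theorem HR_vec {R : Type*} [CommRing R] {x : HG g} {φ : orientedAut g} (h : classOf g φ = x)
    (y : SurfaceGroup g) : (HR g R x) *ᵥ (fun k => ((homologyClass y k : ℤ) : R)) =
      fun k => ((homologyClass (φ.1 y) k : ℤ) : R) := by
  funext k
  rw [Ho_vec, ← HM_class h]
  simp only [mulVec, dotProduct, HR_apply]
  push_cast
  rfl

/-- the classes of the chain -/
def cls (g j : ℕ) : Fin g ⊕ Fin g → ℤ :=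
  Sum.elim (fun m => if j % 2 = 0 then (if (m : ℕ) = j / 2 then 1 else
    if (m : ℕ) + 1 = j / 2 then -1 else 0) else 0)
    (fun m => if j % 2 = 1 ∧ (m : ℕ) = j / 2 then 1 else 0)

theorem cls_even (i : Fin g) : cls g (2 * i) = ce i := by
  funext k
  rcases k with m | m
  · unfold cls ce
    simp only [Sum.elim_inl]
    rw [if_pos (by omega), show (2 * (i : ℕ)) / 2 = i by omega]
    by_cases h : m = i
    · rw [if_pos h, if_pos (by rw [h])]
    · rw [if_neg h, if_neg (fun e => h (Fin.ext e))]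
  · unfold cls ce
    simp only [Sum.elim_inr]
    rw [if_neg (by omega)]

theorem cls_odd (i : Fin g) : cls g (2 * i + 1) = Pi.single (Sum.inr i) 1 := by
  funext k
  rcases k with m | m
  · unfold cls
    simp only [Sum.elim_inl]
    rw [if_neg (by omega)]
    simp
  · unfold cls
    simp only [Sum.elim_inr]
    by_cases h : m = i
    · rw [if_pos (by rw [h]; omega), h]
      simp
    · rw [if_neg (fun e => h (Fin.ext (by omega)))]
      rw [Pi.single_eq_of_ne (fun e => h (Sum.inr.inj e))]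

theorem ce_hc (i : Fin g) : ce i = homologyClass (mk g (ee i)) := by
  funext k
  rcases k with m | m
  · rw [ee_inl]; rfl
  · rw [ee_inr]; rfl

theorem ce_self (i : Fin g) : ce i (Sum.inl i) = 1 := by
  simp [ce]

/-- the chain classes over `K` -/
def cl (K : Type*) [CommRing K] (g j : ℕ) : Fin g ⊕ Fin g → K := fun k => ((cls g j k : ℤ) : K)

theorem tM_class {j : ℕ} (hj : j < 2 * g) : classOf g ⟨sv ⟨j, hj⟩, sv_pres _⟩ = (tM g j : HG g) := by
  rw [tM_coe, tt_lt hj]
  rfl

theorem up_cl {K : Type*} [CommRing K] {j : ℕ} (hj : j + 1 < 2 * g) :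
    HR g K (tM g (j + 1)) *ᵥ cl K g j = cl K g j - cl K g (j + 1) := by
  rcases Nat.even_or_odd' j with ⟨i, rfl | rfl⟩
  · have hi : i < g := by omega
    have h1 : cls g (2 * i) = homologyClass (mk g (ee (⟨i, hi⟩ : Fin g))) := by
      rw [← ce_hc]
      exact cls_even ⟨i, hi⟩
    have h2 : cls g (2 * i + 1) = Pi.single (Sum.inr (⟨i, hi⟩ : Fin g)) 1 := cls_odd ⟨i, hi⟩
    have h3 := HR_vec (R := K) (tM_class hj) (mk g (ee (⟨i, hi⟩ : Fin g)))
    have h4 := hc_odd (⟨i, hi⟩ : Fin g) (mk g (ee (⟨i, hi⟩ : Fin g)))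
    have h5 : intersectionForm (homologyClass (mk g (ee (⟨i, hi⟩ : Fin g))))
        (Pi.single (Sum.inr (⟨i, hi⟩ : Fin g)) 1) = 1 := by
      rw [form_swap, form_inr, ← ce_hc, ce_self]
      norm_num
    unfold cl
    rw [h1, h3, h2]
    funext k
    have h6 := congrFun h4 k
    rw [tv, h5, one_smul] at h6
    show ((homologyClass (sv _ _) k : ℤ) : K) = _
    rw [h6]
    simp
  · have hi : i < g := by omega
    have hi' : i + 1 < g := by omega
    have h1 : cls g (2 * i + 1) = Pi.single (Sum.inr (⟨i, hi⟩ : Fin g)) 1 := cls_odd ⟨i, hi⟩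
    have h1' : cls g (2 * i + 1) = homologyClass (gen (Sum.inr (⟨i, hi⟩ : Fin g))) := by
      rw [hc_gen, h1]
    have h2 : cls g (2 * (i + 1)) = ce (⟨i + 1, hi'⟩ : Fin g) := cls_even ⟨i + 1, hi'⟩
    have h3 := HR_vec (R := K) (tM_class (j := 2 * (i + 1)) (by omega))
      (gen (Sum.inr (⟨i, hi⟩ : Fin g)))
    have h4 := hc_even (⟨i + 1, hi'⟩ : Fin g) (gen (Sum.inr (⟨i, hi⟩ : Fin g)))
    have h5 : intersectionForm (Pi.single (Sum.inr (⟨i, hi⟩ : Fin g)) 1)
        (ce (⟨i + 1, hi'⟩ : Fin g)) = 1 := by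
      rw [form_inr]
      simp [ce]
    rw [show 2 * i + 1 + 1 = 2 * (i + 1) by ring]
    unfold cl
    rw [h1', h3, h2]
    funext k
    have h6 := congrFun h4 k
    rw [tv, ← ce_hc, hc_gen, h5, one_smul] at h6
    show ((homologyClass (sv _ _) k : ℤ) : K) = _
    rw [h6, hc_gen]
    simp

theorem zero_cl {K : Type*} [CommRing K] (hg : 0 < g) :
    HR g K (tM g 0) *ᵥ cl K g 1 = cl K g 1 + cl K g 0 := by
  have h1 : cls g 1 = Pi.single (Sum.inr (⟨0, hg⟩ : Fin g)) 1 := cls_odd ⟨0, hg⟩
  have h1' : cls g 1 = homologyClass (gen (Sum.inr (⟨0, hg⟩ : Fin g))) := by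
    rw [hc_gen, h1]
  have h2 : cls g 0 = ce (⟨0, hg⟩ : Fin g) := cls_even ⟨0, hg⟩
  have h3 := HR_vec (R := K) (tM_class (j := 0) (by omega))
    (gen (Sum.inr (⟨0, hg⟩ : Fin g)))
  have h4 := hc_even (⟨0, hg⟩ : Fin g) (gen (Sum.inr (⟨0, hg⟩ : Fin g)))
  have h5 : intersectionForm (Pi.single (Sum.inr (⟨0, hg⟩ : Fin g)) 1)
      (ce (⟨0, hg⟩ : Fin g)) = -1 := by
    rw [form_inr, ce_self]
  unfold cl
  rw [h1', h3, h2]
  funext k
  have h6 := congrFun h4 k
  rw [tv, ← ce_hc, hc_gen, h5] at h6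
  show ((homologyClass (sv _ _) k : ℤ) : K) = _
  refine (congrArg (fun z : ℤ => (z : K)) h6).trans ?_
  rw [hc_gen]
  simp

theorem uu_cl {K : Type*} [CommRing K] {m : ℕ} (hm : m < g) :
    uu (cl K g) m = Pi.single (Sum.inl ⟨m, hm⟩) 1 := by
  induction m with
  | zero =>
    show cl K g 0 = _
    have h2 : cls g 0 = ce (⟨0, hm⟩ : Fin g) := cls_even ⟨0, hm⟩
    unfold cl
    rw [h2]
    funext k
    rcases k with k | k
    · by_cases h : k = ⟨0, hm⟩
      · rw [h, ce_self]
        simp
      · rw [Pi.single_eq_of_ne (fun e => h (Sum.inl.inj e))]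
        simp [ce, h]
    · simp [ce]
  | succ m ih =>
    show uu (cl K g) m + cl K g (2 * m + 2) = _
    rw [ih (by omega)]
    have h2 : cls g (2 * (m + 1)) = ce (⟨m + 1, hm⟩ : Fin g) := cls_even ⟨m + 1, hm⟩
    unfold cl
    rw [show 2 * m + 2 = 2 * (m + 1) by ring, h2]
    funext k
    rcases k with k | k
    · by_cases h : k = ⟨m + 1, hm⟩
      · rw [h, Pi.add_apply, ce_self, Pi.single_eq_of_ne (by
          intro e
          have := congrArg Fin.val (Sum.inl.inj e)
          simp at this)]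
        simp
      · rw [Pi.single_eq_of_ne (fun e => h (Sum.inl.inj e)), Pi.add_apply]
        by_cases h' : (k : ℕ) = m
        · have e : k = ⟨m, by omega⟩ := Fin.ext h'
          rw [e]
          simp [ce]
        · rw [Pi.single_eq_of_ne (fun e => h' (by
            have := congrArg Fin.val (Sum.inl.inj e)
            simpa using this))]
          simp [ce, h, h']
    · simp [ce]

theorem ub_cl {K : Type*} [CommRing K] (k : Fin g ⊕ Fin g) : ub g (cl K g) k = Pi.single k 1 := by
  rcases k with m | m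
  · exact uu_cl m.2
  · show cl K g (2 * m + 1) = _
    unfold cl
    rw [cls_odd]
    funext k
    by_cases h : k = Sum.inr m
    · rw [h]; simp
    · rw [Pi.single_eq_of_ne h, Pi.single_eq_of_ne h]
      simp

end

end Pool.Agent.E8helper34.M4
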