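import Mathlib
import Pool.Agent.E8helper34.M4.Sec

set_option autoImplicit false

/-! Sums of copies of the homology and of the trivial representation. -/

namespace Pool.Agent.E8helper34.M4

open Pool.Agent.E8helper34.MR

open Pool.Agent.H29R2.MG Pool.Agent.TH35.MG Pool.Agent.R352.MG Pool.Agent.R665.MGR
open Module Matrix Kronecker

/-- the index set -/
abbrev Ix (g a b : ℕ) : Type := (Fin a × (Fin g ⊕ Fin g)) ⊕ Fin b

section
variable {g : ℕ} (a b : ℕ) (R : Type*) [CommRing R]

/-- `a` copies of the homology and `b` copies of the trivial representation -/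
def Std : HG g →* Matrix (Ix g a b) (Ix g a b) R where
  toFun x := Matrix.fromBlocks ((1 : Matrix (Fin a) (Fin a) R) ⊗ₖ HR g R x) 0 0 1
  map_one' := by
    rw [map_one, Matrix.one_kronecker_one, Matrix.fromBlocks_one]
  map_mul' x y := by
    rw [Matrix.fromBlocks_multiply, map_mul]
    congr 1
    · rw [Matrix.mul_zero, add_zero, ← Matrix.mul_kronecker_mul, Matrix.one_mul]
    · simp
    · simp
    · simp

theorem Std_ll (x : HG g) (p q : Fin a × (Fin g ⊕ Fin g)) :
    Std a b R x (Sum.inl p) (Sum.inl q) = (if p.1 = q.1 then 1 else 0) * HR g R x p.2 q.2 := rfl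

theorem Std_lr (x : HG g) (p : Fin a × (Fin g ⊕ Fin g)) (q : Fin b) :
    Std a b R x (Sum.inl p) (Sum.inr q) = 0 := rfl

theorem Std_rl (x : HG g) (p : Fin a × (Fin g ⊕ Fin g)) (q : Fin b) :
    Std a b R x (Sum.inr q) (Sum.inl p) = 0 := rfl

theorem Std_rr (x : HG g) (p q : Fin b) :
    Std a b R x (Sum.inr p) (Sum.inr q) = if p = q then 1 else 0 := rfl

variable {a b R}

theorem Std_mul_l {κ : Type*} (x : HG g) (X : Matrix (Ix g a b) κ R) (i : Fin a)
    (k : Fin g ⊕ Fin g) (q : κ) : (Std a b R x * X) (Sum.inl (i, k)) q =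
      ∑ k', HR g R x k k' * X (Sum.inl (i, k')) q := by
  rw [Matrix.mul_apply, Fintype.sum_sum_type, Fintype.sum_prod_type]
  simp only [Std_ll, Std_lr, zero_mul, Finset.sum_const_zero, add_zero]
  rw [Finset.sum_eq_single i]
  · simp
  · intro j _ hj
    simp [hj.symm]
  · intro h; exact absurd (Finset.mem_univ _) h

theorem Std_mul_r {κ : Type*} (x : HG g) (X : Matrix (Ix g a b) κ R) (i : Fin b) (q : κ) :
    (Std a b R x * X) (Sum.inr i) q = X (Sum.inr i) q := by
  rw [Matrix.mul_apply, Fintype.sum_sum_type]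
  simp [Std_rl, Std_rr]

theorem mul_Std_l {κ : Type*} (x : HG g) (X : Matrix κ (Ix g a b) R) (i : Fin a)
    (k : Fin g ⊕ Fin g) (q : κ) : (X * Std a b R x) q (Sum.inl (i, k)) =
      ∑ k', X q (Sum.inl (i, k')) * HR g R x k' k := by
  rw [Matrix.mul_apply, Fintype.sum_sum_type, Fintype.sum_prod_type]
  simp only [Std_ll, Std_rl, mul_zero, Finset.sum_const_zero, add_zero]
  rw [Finset.sum_eq_single i]
  · simp
  · intro j _ hj
    simp [hj]
  · intro h; exact absurd (Finset.mem_univ _) h

theorem mul_Std_r {κ : Type*} (x : HG g) (X : Matrix κ (Ix g a b) R) (i : Fin b) (q : κ) :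
    (X * Std a b R x) q (Sum.inr i) = X q (Sum.inr i) := by
  rw [Matrix.mul_apply, Fintype.sum_sum_type]
  simp [Std_lr, Std_rr]

theorem Std_map {S : Type*} [CommRing S] (π : R →+* S) (x : HG g) :
    (Std a b R x).map π = Std a b S x := by
  ext p q
  rw [Matrix.map_apply]
  rcases p with p | p <;> rcases q with q | q
  · rw [Std_ll, Std_ll, map_mul, ← HR_map π]
    simp
  · rw [Std_lr, Std_lr, map_zero]
  · rw [Std_rl, Std_rl, map_zero]
  · rw [Std_rr, Std_rr]
    split_ifs <;> simp

end

/-- derivations with values in the endomorphisms are inner -/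
theorem inner_Std {g a b : ℕ} {K : Type*} [Field K] (hd : 4 * g < bd g)
    (hK : ((2 * g - 2 : ℕ) : K) ≠ 0) (c : HG g → Matrix (Ix g a b) (Ix g a b) K)
    (hc : ∀ x y, c (x * y) = Std a b K x * c y + c x * Std a b K y) :
    ∃ D : Matrix (Ix g a b) (Ix g a b) K, ∀ x, c x = D * Std a b K x - Std a b K x * D := by
  classical
  have hcard : Fintype.card (Fin g ⊕ Fin g) = 2 * g := by
    rw [Fintype.card_sum, Fintype.card_fin]
    ring
  have hg0 : 0 < g := by
    rcases Nat.eq_zero_or_pos g with rfl | h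
    · exact absurd hd (by decide)
    · exact h
  have hHH : ∀ i j : Fin a, ∃ D : Matrix (Fin g ⊕ Fin g) (Fin g ⊕ Fin g) K, ∀ x,
      (Matrix.of fun k l => c x (Sum.inl (i, k)) (Sum.inl (j, l))) =
        D * HR g K x - HR g K x * D := by
    intro i j
    refine secH (S := HR g K)
      (c := fun x => Matrix.of fun k l => c x (Sum.inl (i, k)) (Sum.inl (j, l))) ?_ ?_ hK
    · intro x y
      ext k l
      show c (x * y) _ _ = _
      rw [hc, Matrix.add_apply, Std_mul_l, mul_Std_l, Matrix.add_apply, Matrix.mul_apply,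
        Matrix.mul_apply]
      rfl
    · rw [hcard]; omega
  have hH1 : ∀ (i : Fin a) (j : Fin b), ∃ D : Matrix (Fin g ⊕ Fin g) Unit K, ∀ x,
      (Matrix.of fun k (_ : Unit) => c x (Sum.inl (i, k)) (Sum.inr j)) =
        D * (1 : HG g →* Matrix Unit Unit K) x - HR g K x * D := by
    intro i j
    refine sec1 (S := HR g K)
      (c := fun x => Matrix.of fun k (_ : Unit) => c x (Sum.inl (i, k)) (Sum.inr j)) ?_ ?_ hK
    · intro x y
      ext k l
      show c (x * y) _ _ = _
      rw [hc, Matrix.add_apply, Std_mul_l, mul_Std_r, Matrix.add_apply, Matrix.mul_apply,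
        MonoidHom.one_apply, Matrix.mul_one]
      rfl
    · rw [hcard]; omega
  have h1H : ∀ (i : Fin b) (j : Fin a), ∃ D : Matrix Unit (Fin g ⊕ Fin g) K, ∀ x,
      (Matrix.of fun (_ : Unit) l => c x (Sum.inr i) (Sum.inl (j, l))) =
        D * HR g K x - (1 : HG g →* Matrix Unit Unit K) x * D := by
    intro i j
    refine secH (S := (1 : HG g →* Matrix Unit Unit K))
      (c := fun x => Matrix.of fun (_ : Unit) l => c x (Sum.inr i) (Sum.inl (j, l))) ?_ ?_ hK
    · intro x y
      ext k l
      show c (x * y) _ _ = _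
      rw [hc, Matrix.add_apply, Std_mul_r, mul_Std_l, Matrix.add_apply,
        MonoidHom.one_apply, Matrix.one_mul, Matrix.mul_apply]
      rfl
    · rw [Fintype.card_unit]; omega
  have h11 : ∀ (i j : Fin b), ∃ D : Matrix Unit Unit K, ∀ x,
      (Matrix.of fun (_ _ : Unit) => c x (Sum.inr i) (Sum.inr j)) =
        D * (1 : HG g →* Matrix Unit Unit K) x - (1 : HG g →* Matrix Unit Unit K) x * D := by
    intro i j
    refine sec1 (S := (1 : HG g →* Matrix Unit Unit K))
      (c := fun x => Matrix.of fun (_ _ : Unit) => c x (Sum.inr i) (Sum.inr j)) ?_ ?_ hK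
    · intro x y
      ext k l
      show c (x * y) _ _ = _
      rw [hc, Matrix.add_apply, Std_mul_r, mul_Std_r, Matrix.add_apply,
        MonoidHom.one_apply, Matrix.one_mul, MonoidHom.one_apply, Matrix.mul_one]
      rfl
    · rw [Fintype.card_unit]; omega
  choose DHH eHH using hHH
  choose DH1 eH1 using hH1
  choose D1H e1H using h1H
  choose D11 e11 using h11
  let D : Matrix (Ix g a b) (Ix g a b) K := Matrix.of fun p q => match p, q with
    | Sum.inl (i, k), Sum.inl (j, l) => DHH i j k l
    | Sum.inl (i, k), Sum.inr j => DH1 i j k ()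
    | Sum.inr i, Sum.inl (j, l) => D1H i j () l
    | Sum.inr i, Sum.inr j => D11 i j () ()
  refine ⟨D, ?_⟩
  intro x
  ext p q
  rcases p with ⟨i, k⟩ | i <;> rcases q with ⟨j, l⟩ | j
  · have h := congrFun (congrFun (eHH i j x) k) l
    rw [Matrix.sub_apply, Matrix.mul_apply, Matrix.mul_apply] at h
    rw [Matrix.sub_apply, mul_Std_l, Std_mul_l]
    exact h
  · have h := congrFun (congrFun (eH1 i j x) k) ()
    rw [Matrix.sub_apply, MonoidHom.one_apply, Matrix.mul_one, Matrix.mul_apply] at h
    rw [Matrix.sub_apply, mul_Std_r, Std_mul_l]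
    exact h
  · have h := congrFun (congrFun (e1H i j x) ()) l
    rw [Matrix.sub_apply, MonoidHom.one_apply, Matrix.one_mul, Matrix.mul_apply] at h
    rw [Matrix.sub_apply, mul_Std_l, Std_mul_r]
    exact h
  · have h := congrFun (congrFun (e11 i j x) ()) ()
    rw [Matrix.sub_apply, MonoidHom.one_apply, Matrix.mul_one, Matrix.one_mul] at h
    rw [Matrix.sub_apply, mul_Std_r, Std_mul_r]
    exact h

end Pool.Agent.E8helper34.M4
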