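import Mathlib
import Pool.Agent.E8helper34.M4.Cls

set_option autoImplicit false

/-! Rectangular cocycles with values in a standard representation. -/

namespace Pool.Agent.E8helper34.M4

open Pool.Agent.E8helper34.MR

open Pool.Agent.H29R2.MG Pool.Agent.TH35.MG Pool.Agent.R352.MG Pool.Agent.R665.MGR
open Module Matrix

section
variable {g a b : ℕ} {K : Type*} [Field K]

theorem card_hom : Fintype.card (Fin g ⊕ Fin g) = 2 * g := by
  rw [Fintype.card_sum, Fintype.card_fin]
  ring

theorem pos_of (hd : 4 * g < bd g) : 0 < g := by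
  rcases Nat.eq_zero_or_pos g with rfl | h
  · exact absurd hd (by decide)
  · exact h

theorem innerH (hd : 4 * g < bd g) (hK : ((2 * g - 2 : ℕ) : K) ≠ 0)
    (c : HG g → Matrix (Ix g a b) (Fin g ⊕ Fin g) K)
    (hc : ∀ x y, c (x * y) = Std a b K x * c y + c x * HR g K y) :
    ∃ D : Matrix (Ix g a b) (Fin g ⊕ Fin g) K, ∀ x, c x = D * HR g K x - Std a b K x * D := by
  classical
  have hg0 := pos_of hd
  have hH : ∀ i : Fin a, ∃ D : Matrix (Fin g ⊕ Fin g) (Fin g ⊕ Fin g) K, ∀ x,
      (Matrix.of fun k l => c x (Sum.inl (i, k)) l) = D * HR g K x - HR g K x * D := by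
    intro i
    refine secH (S := HR g K)
      (c := fun x => Matrix.of fun k l => c x (Sum.inl (i, k)) l) ?_ ?_ hK
    · intro x y
      ext k l
      show c (x * y) _ _ = _
      rw [hc, Matrix.add_apply, Std_mul_l, Matrix.add_apply, Matrix.mul_apply,
        Matrix.mul_apply, Matrix.mul_apply]
      rfl
    · rw [card_hom]; omega
  have h1 : ∀ i : Fin b, ∃ D : Matrix Unit (Fin g ⊕ Fin g) K, ∀ x,
      (Matrix.of fun (_ : Unit) l => c x (Sum.inr i) l) =
        D * HR g K x - (1 : HG g →* Matrix Unit Unit K) x * D := by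
    intro i
    refine secH (S := (1 : HG g →* Matrix Unit Unit K))
      (c := fun x => Matrix.of fun (_ : Unit) l => c x (Sum.inr i) l) ?_ ?_ hK
    · intro x y
      ext k l
      show c (x * y) _ _ = _
      rw [hc, Matrix.add_apply, Std_mul_r, Matrix.add_apply,
        MonoidHom.one_apply, Matrix.one_mul, Matrix.mul_apply, Matrix.mul_apply]
      rfl
    · rw [Fintype.card_unit]; omega
  choose DH eH using hH
  choose D1 e1 using h1
  let D : Matrix (Ix g a b) (Fin g ⊕ Fin g) K := Matrix.of fun p l => match p with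
    | Sum.inl (i, k) => DH i k l
    | Sum.inr i => D1 i () l
  refine ⟨D, ?_⟩
  intro x
  ext p l
  rcases p with ⟨i, k⟩ | i
  · have h := congrFun (congrFun (eH i x) k) l
    rw [Matrix.sub_apply, Matrix.mul_apply, Matrix.mul_apply] at h
    rw [Matrix.sub_apply, Std_mul_l, Matrix.mul_apply]
    exact h
  · have h := congrFun (congrFun (e1 i x) ()) l
    rw [Matrix.sub_apply, MonoidHom.one_apply, Matrix.one_mul, Matrix.mul_apply] at h
    rw [Matrix.sub_apply, Std_mul_r, Matrix.mul_apply]
    exact h

theorem inner1 (hd : 4 * g < bd g) (hK : ((2 * g - 2 : ℕ) : K) ≠ 0)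
    (c : HG g → Matrix (Ix g a b) Unit K)
    (hc : ∀ x y, c (x * y) = Std a b K x * c y + c x * (1 : HG g →* Matrix Unit Unit K) y) :
    ∃ D : Matrix (Ix g a b) Unit K, ∀ x,
      c x = D * (1 : HG g →* Matrix Unit Unit K) x - Std a b K x * D := by
  classical
  have hg0 := pos_of hd
  have hH : ∀ i : Fin a, ∃ D : Matrix (Fin g ⊕ Fin g) Unit K, ∀ x,
      (Matrix.of fun k l => c x (Sum.inl (i, k)) l) =
        D * (1 : HG g →* Matrix Unit Unit K) x - HR g K x * D := by
    intro i
    refine sec1 (S := HR g K)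
      (c := fun x => Matrix.of fun k l => c x (Sum.inl (i, k)) l) ?_ ?_ hK
    · intro x y
      ext k l
      show c (x * y) _ _ = _
      rw [hc, Matrix.add_apply, Std_mul_l, Matrix.add_apply, Matrix.mul_apply,
        Matrix.mul_apply, Matrix.mul_apply]
      rfl
    · rw [card_hom]; omega
  have h1 : ∀ i : Fin b, ∃ D : Matrix Unit Unit K, ∀ x,
      (Matrix.of fun (_ : Unit) l => c x (Sum.inr i) l) =
        D * (1 : HG g →* Matrix Unit Unit K) x - (1 : HG g →* Matrix Unit Unit K) x * D := by
    intro i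
    refine sec1 (S := (1 : HG g →* Matrix Unit Unit K))
      (c := fun x => Matrix.of fun (_ : Unit) l => c x (Sum.inr i) l) ?_ ?_ hK
    · intro x y
      ext k l
      show c (x * y) _ _ = _
      rw [hc, Matrix.add_apply, Std_mul_r, Matrix.add_apply,
        MonoidHom.one_apply x, Matrix.one_mul, Matrix.mul_apply, Matrix.mul_apply]
      rfl
    · rw [Fintype.card_unit]; omega
  choose DH eH using hH
  choose D1 e1 using h1
  let D : Matrix (Ix g a b) Unit K := Matrix.of fun p l => match p with
    | Sum.inl (i, k) => DH i k l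
    | Sum.inr i => D1 i () l
  refine ⟨D, ?_⟩
  intro x
  ext p l
  rcases p with ⟨i, k⟩ | i
  · have h := congrFun (congrFun (eH i x) k) l
    rw [Matrix.sub_apply, Matrix.mul_apply, Matrix.mul_apply] at h
    rw [Matrix.sub_apply, Std_mul_l, Matrix.mul_apply]
    exact h
  · have h := congrFun (congrFun (e1 i x) ()) l
    rw [Matrix.sub_apply, MonoidHom.one_apply, Matrix.one_mul, Matrix.mul_one] at h
    rw [Matrix.sub_apply, Std_mul_r, MonoidHom.one_apply, Matrix.mul_one]
    exact h

end

end Pool.Agent.E8helper34.M4
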