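import Mathlib
import Pool.Agent.E8helper34.M4.Rect

set_option autoImplicit false

/-! Layers of modules over rings, and lifting of families. -/

namespace Pool.Agent.E8helper34.M4

open Pool.Agent.E8helper34.MR

open Pool.Agent.H29R2.MG Pool.Agent.TH35.MG Pool.Agent.R352.MG Pool.Agent.R665.MGR
open Module Matrix

theorem Std_col_l {g a b : ℕ} {R W : Type*} [CommRing R] [AddCommGroup W] [Module R W] (x : HG g)
    (i : Fin a) (l : Fin g ⊕ Fin g) (F : Ix g a b → W) :
    ∑ p, Std a b R x p (Sum.inl (i, l)) • F p = ∑ k, HR g R x k l • F (Sum.inl (i, k)) := by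
  rw [Fintype.sum_sum_type, Fintype.sum_prod_type]
  simp only [Std_ll, Std_rl, zero_smul, Finset.sum_const_zero, add_zero]
  rw [Finset.sum_eq_single i]
  · simp
  · intro j _ hj
    simp [hj]
  · intro h; exact absurd (Finset.mem_univ _) h

theorem Std_col_r {g a b : ℕ} {R W : Type*} [CommRing R] [AddCommGroup W] [Module R W] (x : HG g)
    (i : Fin b) (F : Ix g a b → W) :
    ∑ p, Std a b R x p (Sum.inr i) • F p = F (Sum.inr i) := by
  rw [Fintype.sum_sum_type]
  simp [Std_lr, Std_rr]

section
variable {g : ℕ} {R k V : Type*} [CommRing R] [Field k] {κ : R →+* k}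
  (hκ : Function.Surjective κ) [AddCommGroup V] [Module R V]

theorem smul_of_eq {L : Type*} [AddCommGroup L] [Module R L]
    (h : ∀ r, κ r = 0 → ∀ v : L, r • v = 0) {r s : R} (e : κ r = κ s) (v : L) :
    r • v = s • v := by
  rw [← sub_eq_zero, ← sub_smul]
  exact h _ (by rw [map_sub, e, sub_self]) v

/-- the structure of a vector space over the residue field -/
@[reducible] noncomputable def kMod (L : Type*) [AddCommGroup L] [Module R L]
    (h : ∀ r, κ r = 0 → ∀ v : L, r • v = 0) : Module k L where
  smul c v := Function.surjInv hκ c • v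
  one_smul v := by
    show Function.surjInv hκ 1 • v = v
    rw [smul_of_eq h (s := 1) (by rw [Function.surjInv_eq hκ, map_one]), one_smul]
  mul_smul c c' v := by
    show Function.surjInv hκ (c * c') • v = Function.surjInv hκ c • Function.surjInv hκ c' • v
    rw [smul_smul]
    exact smul_of_eq h (by
      rw [map_mul, Function.surjInv_eq hκ, Function.surjInv_eq hκ, Function.surjInv_eq hκ]) v
  smul_zero c := smul_zero (Function.surjInv hκ c)
  smul_add c v w := smul_add (Function.surjInv hκ c) v w
  add_smul c c' v := by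
    show Function.surjInv hκ (c + c') • v = Function.surjInv hκ c • v + Function.surjInv hκ c' • v
    rw [← add_smul]
    exact smul_of_eq h (by
      rw [map_add, Function.surjInv_eq hκ, Function.surjInv_eq hκ, Function.surjInv_eq hκ]) v
  zero_smul v := by
    show Function.surjInv hκ 0 • v = 0
    exact h _ (Function.surjInv_eq hκ 0) v

include hκ in
/-- the structure of a layer -/
theorem layer (ρ : HG g →* Module.End R V) {L : Submodule R V} (hL : ∀ x, ∀ v ∈ L, ρ x v ∈ L)
    (hκL : ∀ r, κ r = 0 → ∀ v ∈ L, r • v = 0) {d : ℕ} (s : Fin d → V) (hs : ∀ i, s i ∈ L)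
    (hgen : ∀ v ∈ L, ∃ r : Fin d → R, v = ∑ i, r i • s i) (hd : d < bd g)
    (hK : ((2 * g - 2 : ℕ) : k) ≠ 0) :
    ∃ (a b : ℕ) (B : Ix g a b → V), (∀ p, B p ∈ L) ∧
      (∀ v ∈ L, ∃ r : Ix g a b → R, v = ∑ p, r p • B p) ∧
      (∀ r : Ix g a b → R, ∑ p, r p • B p = 0 → ∀ p, κ (r p) = 0) ∧
      ∀ x q, ρ x (B q) = ∑ p, Std a b R x p q • B p := by
  classical
  have h' : ∀ r, κ r = 0 → ∀ v : L, r • v = 0 := by
    intro r hr v
    apply Subtype.ext
    exact hκL r hr v v.2
  let _ : Module k L := kMod hκ L h'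
  have hdef : ∀ (c : k) (v : L), c • v = Function.surjInv hκ c • v := fun c v => rfl
  have hsm : ∀ (r : R) (v : L), κ r • v = r • v := by
    intro r v
    rw [hdef]
    exact smul_of_eq h' (Function.surjInv_eq hκ _) v
  let ρL : HG g →* Module.End k L :=
    { toFun := fun x =>
        { toFun := fun v => ⟨ρ x v, hL x v v.2⟩
          map_add' := by
            intro v w
            apply Subtype.ext
            exact map_add (ρ x) (v : V) w
          map_smul' := by
            intro c v
            apply Subtype.ext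
            show ρ x ((c • v : L) : V) = _
            rw [hdef, Submodule.coe_smul, map_smul]
            rfl }
      map_one' := by
        apply LinearMap.ext
        intro v
        apply Subtype.ext
        show ρ 1 (v : V) = v
        rw [map_one, Module.End.one_apply]
      map_mul' := by
        intro x y
        apply LinearMap.ext
        intro v
        apply Subtype.ext
        show ρ (x * y) (v : V) = ρ x (ρ y v)
        rw [map_mul, Module.End.mul_apply] }
  have hρL : ∀ x (v : L), ((ρL x v : L) : V) = ρ x v := fun x v => rfl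
  let s' : Fin d → L := fun i => ⟨s i, hs i⟩
  have hspan : Submodule.span k (Set.range s') = ⊤ := by
    rw [eq_top_iff]
    rintro v -
    obtain ⟨r, hr⟩ := hgen v v.2
    have e : v = ∑ i, κ (r i) • s' i := by
      apply Subtype.ext
      rw [Submodule.coe_sum, hr]
      apply Finset.sum_congr rfl
      intro i _
      rw [hsm]
      rfl
    rw [e]
    exact Submodule.sum_mem _ fun i _ => Submodule.smul_mem _ _ (Submodule.subset_span ⟨i, rfl⟩)
  have hfin : FiniteDimensional k L :=
    ⟨⟨Finset.univ.image s', by rw [Finset.coe_image, Finset.coe_univ, Set.image_univ]; exact hspan⟩⟩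
  have hrank : finrank k L ≤ d := by
    have h1 := finrank_range_le_card (R := k) s'
    rw [Set.finrank, hspan, finrank_top, Fintype.card_fin] at h1
    exact h1
  obtain ⟨a, b, B, hB⟩ := classification (g := g) (K := k) (V := L) (by omega) hK ρL
  refine ⟨a, b, fun p => (B p : V), fun p => (B p).2, ?_, ?_, ?_⟩
  · intro v hv
    refine ⟨fun p => Function.surjInv hκ (B.repr ⟨v, hv⟩ p), ?_⟩
    have h1 := congrArg Subtype.val (B.sum_repr ⟨v, hv⟩)
    rw [Submodule.coe_sum] at h1
    exact h1.symm
  · intro r hr p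
    have h1 : ∑ p, κ (r p) • B p = 0 := by
      apply Subtype.ext
      rw [Submodule.coe_sum, Submodule.coe_zero, ← hr]
      apply Finset.sum_congr rfl
      intro p _
      rw [hsm]
      rfl
    exact Fintype.linearIndependent_iff.1 B.linearIndependent _ h1 p
  · intro x q
    have h1 : ρL x (B q) = ∑ p, Std a b k x p q • B p := by
      rcases q with ⟨i, l⟩ | i
      · rw [(hB x).1, Std_col_l]
      · rw [(hB x).2, Std_col_r]
    have h2 := congrArg Subtype.val h1
    rw [hρL, Submodule.coe_sum] at h2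
    rw [h2]
    apply Finset.sum_congr rfl
    intro p _
    rw [← Std_map κ, Matrix.map_apply, hsm]
    rfl

include hκ in
/-- lifting of families -/
theorem lift_abs {m' : Type*} [Fintype m'] [DecidableEq m'] (S' : HG g →* Matrix m' m' R)
    (hsec : ∀ (a b : ℕ) (c : HG g → Matrix (Ix g a b) m' k),
      (∀ x y, c (x * y) = Std a b k x * c y + c x * (S' y).map κ) →
      ∃ D : Matrix (Ix g a b) m' k, ∀ x, c x = D * (S' x).map κ - Std a b k x * D)
    (ρ : HG g →* Module.End R V) {L : Submodule R V} (hL : ∀ x, ∀ v ∈ L, ρ x v ∈ L)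
    (hκL : ∀ r, κ r = 0 → ∀ v ∈ L, r • v = 0) {d : ℕ} (s : Fin d → V) (hs : ∀ i, s i ∈ L)
    (hgen : ∀ v ∈ L, ∃ r : Fin d → R, v = ∑ i, r i • s i) (hd : d < bd g)
    (hK : ((2 * g - 2 : ℕ) : k) ≠ 0) (u : m' → V)
    (hu : ∀ x l, ρ x (u l) - ∑ j, S' x j l • u j ∈ L) :
    ∃ u' : m' → V, (∀ l, u' l - u l ∈ L) ∧ ∀ x l, ρ x (u' l) = ∑ j, S' x j l • u' j := by
  classical
  obtain ⟨a, b, B, hBL, hBs, hBi, hBa⟩ := layer hκ ρ hL hκL s hs hgen hd hK
  -- the map from matrices
  let φ : Matrix (Ix g a b) m' R → m' → V := fun X l => ∑ p, X p l • B p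
  have φ_def : ∀ X l, φ X l = ∑ p, X p l • B p := fun X l => rfl
  have φ_mem : ∀ X l, φ X l ∈ L := fun X l =>
    Submodule.sum_mem _ fun p _ => Submodule.smul_mem _ _ (hBL p)
  have φ_add : ∀ X Y l, φ (X + Y) l = φ X l + φ Y l := by
    intro X Y l
    rw [φ_def, φ_def, φ_def, ← Finset.sum_add_distrib]
    apply Finset.sum_congr rfl
    intro p _
    rw [Matrix.add_apply, add_smul]
  have φ_sub : ∀ X Y l, φ (X - Y) l = φ X l - φ Y l := by
    intro X Y l
    rw [φ_def, φ_def, φ_def, ← Finset.sum_sub_distrib]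
    apply Finset.sum_congr rfl
    intro p _
    rw [Matrix.sub_apply, sub_smul]
  have φ_std : ∀ x X l, φ (Std a b R x * X) l = ρ x (φ X l) := by
    intro x X l
    rw [φ_def, φ_def, map_sum]
    simp only [map_smul, hBa, Matrix.mul_apply, Finset.sum_smul, Finset.smul_sum]
    rw [Finset.sum_comm]
    apply Finset.sum_congr rfl
    intro q _
    apply Finset.sum_congr rfl
    intro p _
    rw [smul_smul, mul_comm]
  have φ_mul : ∀ X (Y : Matrix m' m' R) l, φ (X * Y) l = ∑ j, Y j l • φ X j := by
    intro X Y l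
    simp only [φ_def, Matrix.mul_apply, Finset.sum_smul, Finset.smul_sum]
    rw [Finset.sum_comm]
    apply Finset.sum_congr rfl
    intro q _
    apply Finset.sum_congr rfl
    intro p _
    rw [smul_smul, mul_comm]
  have φ_zero : ∀ X, (∀ l, φ X l = 0) → X.map κ = 0 := by
    intro X hX
    ext p l
    exact hBi (fun p => X p l) (hX l) p
  have φ_ker : ∀ X, X.map κ = 0 → ∀ l, φ X l = 0 := by
    intro X hX l
    apply Finset.sum_eq_zero
    intro p _
    exact hκL _ (congrFun (congrFun hX p) l) _ (hBL p)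
  -- the coordinates of the defect
  have hC : ∀ x, ∃ C : Matrix (Ix g a b) m' R, ∀ l,
      ρ x (u l) - ∑ j, S' x j l • u j = φ C l := by
    intro x
    have h1 := fun l => hBs _ (hu x l)
    choose r hr using h1
    exact ⟨Matrix.of fun p l => r l p, hr⟩
  choose C hC using hC
  have hC' : ∀ x l, ρ x (u l) = φ (C x) l + ∑ j, S' x j l • u j := by
    intro x l
    rw [← hC, sub_add_cancel]
  have hcoc : ∀ x y, (C (x * y) - (Std a b R x * C y + C x * S' y)).map κ = 0 := by
    intro x y
    apply φ_zero
    intro l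
    have e0 : ρ (x * y) (u l) = ρ x (ρ y (u l)) := by
      rw [map_mul, Module.End.mul_apply]
    have e3 : ρ x (∑ j, S' y j l • u j) =
        ∑ j, S' y j l • (φ (C x) j + ∑ i, S' x i j • u i) := by
      rw [map_sum]
      apply Finset.sum_congr rfl
      intro j _
      rw [map_smul, hC']
    rw [φ_sub, φ_add, φ_std, φ_mul, sub_eq_zero, ← hC, e0, hC' y l, map_add, e3]
    simp only [smul_add, Finset.sum_add_distrib]
    have e : ∑ j, S' (x * y) j l • u j = ∑ j, S' y j l • ∑ i, S' x i j • u i := by
      simp only [map_mul, Matrix.mul_apply, Finset.sum_smul, Finset.smul_sum]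
      rw [Finset.sum_comm]
      apply Finset.sum_congr rfl
      intro i _
      apply Finset.sum_congr rfl
      intro j _
      rw [smul_smul, mul_comm]
    rw [e]
    abel
  obtain ⟨D', hD'⟩ := hsec a b (fun x => (C x).map κ) (by
    intro x y
    have h1 := hcoc x y
    rw [Matrix.map_sub _ (map_sub κ), Matrix.map_add _ (map_add κ), Matrix.map_mul,
      Matrix.map_mul, Std_map, sub_eq_zero] at h1
    exact h1)
  obtain ⟨D, rfl⟩ : ∃ D : Matrix (Ix g a b) m' R, D.map κ = D' := by
    refine ⟨D'.map (Function.surjInv hκ), ?_⟩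
    ext i j
    rw [Matrix.map_apply, Matrix.map_apply, Function.surjInv_eq hκ]
  refine ⟨fun l => u l + φ D l, ?_, ?_⟩
  · intro l
    rw [add_sub_cancel_left]
    exact φ_mem _ _
  · intro x l
    have h1 : φ (C x - (D * S' x - Std a b R x * D)) l = 0 := by
      apply φ_ker
      rw [Matrix.map_sub _ (map_sub κ), Matrix.map_sub _ (map_sub κ), Matrix.map_mul,
        Matrix.map_mul, Std_map, sub_eq_zero]
      exact hD' x
    rw [φ_sub, φ_sub, φ_mul, φ_std, sub_eq_zero] at h1
    rw [map_add, hC', h1]
    simp only [smul_add, Finset.sum_add_distrib]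
    abel

end

end Pool.Agent.E8helper34.M4
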