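import Mathlib
import Pool.Agent.E8helper34.M4.Noe

set_option autoImplicit false

/-! The kernels over arbitrary commutative rings. -/

namespace Pool.Agent.E8helper34.M4

open Pool.Agent.E8helper34.MR

open Pool.Agent.H29R2.MG Pool.Agent.TH35.MG Pool.Agent.R352.MG Pool.Agent.R665.MGR
open Module Matrix

section
variable {g d : ℕ} {R : Type*} [CommRing R]

/-- conjugation of matrices near the identity -/
theorem conj_sub {a b : ℕ} {S : Type*} [CommRing S] {f : HG g →* Matrix (Fin d) (Fin d) S}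
    {Q : Matrix (Fin d) (Ix g a b) S} {P : Matrix (Ix g a b) (Fin d) S} (h1 : P * Q = 1)
    (h2 : Q * P = 1) (h3 : ∀ x, f x * Q = Q * Std a b S x) (x : HG g) :
    f x - 1 = Q * ((Std a b S x - 1) * P) ∧ Std a b S x - 1 = P * ((f x - 1) * Q) := by
  have e1 : f x = Q * (Std a b S x * P) := by
    rw [← Matrix.mul_assoc, ← h3, Matrix.mul_assoc, h2, Matrix.mul_one]
  have e2 : Std a b S x = P * (f x * Q) := by
    rw [h3, ← Matrix.mul_assoc, h1, Matrix.one_mul]
  constructor
  · rw [Matrix.sub_mul, Matrix.mul_sub, ← e1, Matrix.one_mul, h2]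
  · rw [Matrix.sub_mul, Matrix.mul_sub, ← e2, Matrix.one_mul, h1]

theorem Std_zero {b : ℕ} {S : Type*} [CommRing S] (x : HG g) : Std 0 b S x = 1 := by
  ext p q
  rcases p with ⟨i, _⟩ | p
  · exact i.elim0
  · rcases q with ⟨i, _⟩ | q
    · exact i.elim0
    · rw [Std_rr, Matrix.one_apply]
      simp

/-- the entry `1` of `t_0 - 1` -/
theorem HM_zero (hg : 0 < g) :
    (HM g (tM g 0) - 1) (Sum.inl ⟨0, hg⟩) (Sum.inr ⟨0, hg⟩) = 1 := by
  have h := congrFun (zero_cl (g := g) (K := ℤ) hg) (Sum.inl ⟨0, hg⟩)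
  have h1 : cl ℤ g 1 = Pi.single (Sum.inr (⟨0, hg⟩ : Fin g)) 1 := by
    have := cls_odd (g := g) ⟨0, hg⟩
    unfold cl
    funext k
    exact congrFun this k
  have h2 : cl ℤ g 0 = ce (⟨0, hg⟩ : Fin g) := by
    have := cls_even (g := g) ⟨0, hg⟩
    unfold cl
    funext k
    exact congrFun this k
  rw [h1, h2, Pi.add_apply, ce_self, Matrix.mulVec_single_one] at h
  have h3 : HM g (tM g 0) (Sum.inl ⟨0, hg⟩) (Sum.inr ⟨0, hg⟩) = 1 := by
    have h4 : HR g ℤ (tM g 0) (Sum.inl ⟨0, hg⟩) (Sum.inr ⟨0, hg⟩) = 1 := by simpa using h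
    rw [HR_apply, Int.cast_id] at h4
    exact h4
  rw [Matrix.sub_apply, h3]
  simp

/-- every representation is standard modulo the powers of the maximal ideals -/
theorem conj_max [IsNoetherianRing R] (hd4 : 4 * g < bd g)
    (hd : d < bd g) (hu : IsUnit ((2 * g - 2 : ℕ) : R))
    (f : HG g →* Matrix (Fin d) (Fin d) R) (𝔪 : Ideal R) [h𝔪 : 𝔪.IsMaximal] :
    ∃ a b, ∀ n, Conj a b (chg (Ideal.Quotient.mk (𝔪 ^ (n + 1))) f) := by
  letI : Field (R ⧸ 𝔪) := Ideal.Quotient.field 𝔪
  have hK : ((2 * g - 2 : ℕ) : R ⧸ 𝔪) ≠ 0 := by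
    have h1 := hu.map (Ideal.Quotient.mk 𝔪)
    rw [map_natCast] at h1
    exact h1.ne_zero
  obtain ⟨a, b, Q, P, h⟩ := classM (g := g) hd hK (chg (Ideal.Quotient.mk 𝔪) f)
  refine ⟨a, b, ?_⟩
  intro n
  have hker : RingHom.ker (Ideal.Quotient.mk 𝔪) = 𝔪 := Ideal.mk_ker
  apply conj_ideal (k := R ⧸ 𝔪) (Ideal.Quotient.mk 𝔪) Ideal.Quotient.mk_surjective hd4 hK f
    ⟨Q, P, h⟩ (n + 1)
  · rw [hker]
  · rw [hker]
    exact Ideal.pow_le_self (by omega)

/-- the kernel over a Noetherian ring -/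
theorem ker_noeth [IsNoetherianRing R] (hd4 : 4 * g < bd g)
    (hd : d < bd g) (hu : IsUnit ((2 * g - 2 : ℕ) : R))
    (f : HG g →* Matrix (Fin d) (Fin d) R) :
    ∃ m : ℕ, (∀ n : ℕ, (n : R) = 0 → m ∣ n) ∧
      ∀ x, f x = 1 ↔ ∀ k l, (m : ℤ) ∣ (HM g x - 1) k l := by
  classical
  have hg0 : 0 < g := by
    rcases Nat.eq_zero_or_pos g with rfl | h
    · exact absurd hd4 (by decide)
    · exact h
  -- the annihilator
  let I0 : Ideal ℤ :=
    { carrier := {n | ∀ x i j, (n : R) * (f x - 1) i j = 0}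
      add_mem' := by
        intro n n' h h' x i j
        rw [Int.cast_add, add_mul, h x i j, h' x i j, add_zero]
      zero_mem' := by
        intro x i j
        rw [Int.cast_zero, zero_mul]
      smul_mem' := by
        intro c n h x i j
        rw [smul_eq_mul, Int.cast_mul, mul_assoc, h x i j, mul_zero] }
  have hI0 : ∀ n : ℤ, n ∈ I0 ↔ ∀ x i j, (n : R) * (f x - 1) i j = 0 := fun n => Iff.rfl
  set m := (Submodule.IsPrincipal.generator I0).natAbs with hm
  have hmd : ∀ n : ℤ, n ∈ I0 ↔ (m : ℤ) ∣ n := by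
    intro n
    rw [Submodule.IsPrincipal.mem_iff_generator_dvd I0, hm, Int.natCast_natAbs, abs_dvd]
  have hmI : (m : ℤ) ∈ I0 := (hmd _).2 dvd_rfl
  refine ⟨m, ?_, ?_⟩
  · intro n hn
    have h1 : (n : ℤ) ∈ I0 := by
      rw [hI0]
      intro x i j
      rw [Int.cast_natCast, hn, zero_mul]
    exact Int.natCast_dvd_natCast.1 ((hmd _).1 h1)
  intro x
  constructor
  · intro hx k l
    rw [← hmd, hI0]
    intro y i j
    by_contra hne
    obtain ⟨𝔪, hmax, n, hn⟩ := separate hne
    obtain ⟨a, b, hab⟩ := conj_max hd4 hd hu f 𝔪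
    obtain ⟨Q, P, h1, h2, h3⟩ := hab n
    have hn' : ((HM g x - 1) k l : R) * (f y - 1) i j ∉ 𝔪 ^ (n + 1) :=
      fun h => hn (Ideal.pow_le_pow_right (by omega) h)
    apply hn'
    rcases Nat.eq_zero_or_pos a with rfl | ha
    · have e := (conj_sub h1 h2 h3 y).1
      rw [Std_zero, sub_self, Matrix.zero_mul, Matrix.mul_zero] at e
      have e1 := congrFun (congrFun e i) j
      apply Ideal.mul_mem_left
      rw [← Ideal.Quotient.eq_zero_iff_mem]
      rw [Matrix.sub_apply, map_sub]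
      rw [Matrix.sub_apply, chg_apply, Matrix.map_apply] at e1
      rw [show (Ideal.Quotient.mk (𝔪 ^ (n + 1))) ((1 : Matrix (Fin d) (Fin d) R) i j) =
        (1 : Matrix (Fin d) (Fin d) (R ⧸ 𝔪 ^ (n + 1))) i j by
          rw [Matrix.one_apply, Matrix.one_apply]; split_ifs <;> simp]
      exact e1
    · have e := (conj_sub h1 h2 h3 x).2
      have e0 : chg (Ideal.Quotient.mk (𝔪 ^ (n + 1))) f x = 1 := by
        rw [chg_apply, hx]
        exact Matrix.map_one _ (map_zero _) (map_one _)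
      rw [e0, sub_self, Matrix.zero_mul, Matrix.mul_zero] at e
      have e1 := congrFun (congrFun e (Sum.inl (⟨0, ha⟩, k))) (Sum.inl (⟨0, ha⟩, l))
      rw [Matrix.sub_apply, Std_ll, if_pos rfl, one_mul, HR_apply] at e1
      apply Ideal.mul_mem_right
      rw [← Ideal.Quotient.eq_zero_iff_mem, map_intCast]
      rw [Matrix.sub_apply, Int.cast_sub]
      refine Eq.trans ?_ e1
      congr 1
      rw [Matrix.one_apply, Matrix.one_apply]
      by_cases hkl : k = l
      · rw [if_pos hkl, if_pos (by rw [hkl]), Int.cast_one]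
      · rw [if_neg hkl, if_neg (fun e => hkl (by simpa using e)), Int.cast_zero]
  · intro hx
    by_contra hne
    obtain ⟨i, j, hij⟩ : ∃ i j, (f x - 1) i j ≠ 0 := by
      by_contra hcon
      push Not at hcon
      apply hne
      rw [← sub_eq_zero]
      ext i j
      exact hcon i j
    obtain ⟨𝔪, hmax, n, hn⟩ := separate hij
    obtain ⟨a, b, hab⟩ := conj_max hd4 hd hu f 𝔪
    obtain ⟨Q, P, h1, h2, h3⟩ := hab n
    have hn' : (f x - 1) i j ∉ 𝔪 ^ (n + 1) :=
      fun h => hn (Ideal.pow_le_pow_right (by omega) h)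
    apply hn'
    have hStd : Std a b (R ⧸ 𝔪 ^ (n + 1)) x = 1 := by
      rcases Nat.eq_zero_or_pos a with rfl | ha
      · exact Std_zero x
      · -- `m = 0` in the quotient
        have hm0 : ((m : ℤ) : R ⧸ 𝔪 ^ (n + 1)) = 0 := by
          have e := (conj_sub h1 h2 h3 (tM g 0)).2
          have e0 : ((m : ℤ) : R ⧸ 𝔪 ^ (n + 1)) •
              (chg (Ideal.Quotient.mk (𝔪 ^ (n + 1))) f (tM g 0) - 1) = 0 := by
            ext i' j'
            have h5 := congrArg (Ideal.Quotient.mk (𝔪 ^ (n + 1))) ((hI0 _).1 hmI (tM g 0) i' j')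
            rw [map_mul, map_intCast, map_zero, Matrix.sub_apply, map_sub] at h5
            rw [Matrix.smul_apply, smul_eq_mul, Matrix.sub_apply, chg_apply, Matrix.map_apply]
            rw [show (1 : Matrix (Fin d) (Fin d) (R ⧸ 𝔪 ^ (n + 1))) i' j' =
              (Ideal.Quotient.mk (𝔪 ^ (n + 1))) ((1 : Matrix (Fin d) (Fin d) R) i' j') by
                rw [Matrix.one_apply, Matrix.one_apply]; split_ifs <;> simp]
            exact h5
          have e1 : ((m : ℤ) : R ⧸ 𝔪 ^ (n + 1)) • (Std a b (R ⧸ 𝔪 ^ (n + 1)) (tM g 0) - 1) = 0 := by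
            rw [e, ← Matrix.mul_smul, ← Matrix.smul_mul, e0, Matrix.zero_mul, Matrix.mul_zero]
          have e2 := congrFun (congrFun e1 (Sum.inl (⟨0, ha⟩, Sum.inl ⟨0, hg0⟩)))
            (Sum.inl (⟨0, ha⟩, Sum.inr ⟨0, hg0⟩))
          rw [Matrix.smul_apply, Matrix.sub_apply, Std_ll, if_pos rfl, one_mul, HR_apply] at e2
          have e3 := HM_zero hg0
          rw [Matrix.sub_apply, Matrix.one_apply_ne (by simp), sub_zero] at e3
          rw [e3, Matrix.one_apply_ne (by simp), Int.cast_one, sub_zero, smul_eq_mul,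
            mul_one] at e2
          exact e2
        rw [← sub_eq_zero]
        ext p q
        rcases p with p | p <;> rcases q with q | q
        · rw [Matrix.sub_apply, Std_ll, HR_apply]
          obtain ⟨t, ht⟩ := hx p.2 q.2
          rw [Matrix.sub_apply, sub_eq_iff_eq_add] at ht
          rw [ht, Int.cast_add, Int.cast_mul, hm0, zero_mul, zero_add]
          by_cases h4 : p.1 = q.1
          · rw [if_pos h4, one_mul]
            by_cases h5 : p.2 = q.2
            · have h6 : p = q := Prod.ext h4 h5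
              subst h6
              simp
            · rw [Matrix.one_apply_ne h5, Matrix.one_apply_ne (fun e => h5 (by
                have := Sum.inl.inj e
                rw [this]))]
              simp
          · rw [if_neg h4, zero_mul, Matrix.one_apply_ne (fun e => h4 (by
                have := Sum.inl.inj e
                rw [this]))]
            simp
        · rw [Matrix.sub_apply, Std_lr, Matrix.one_apply_ne (by simp)]
          simp
        · rw [Matrix.sub_apply, Std_rl, Matrix.one_apply_ne (by simp)]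
          simp
        · rw [Matrix.sub_apply, Std_rr, Matrix.one_apply]
          simp
    have e := (conj_sub h1 h2 h3 x).1
    rw [hStd, sub_self, Matrix.zero_mul, Matrix.mul_zero] at e
    have e1 := congrFun (congrFun e i) j
    rw [← Ideal.Quotient.eq_zero_iff_mem]
    rw [Matrix.sub_apply, map_sub]
    rw [Matrix.sub_apply, chg_apply, Matrix.map_apply] at e1
    rw [show (Ideal.Quotient.mk (𝔪 ^ (n + 1))) ((1 : Matrix (Fin d) (Fin d) R) i j) =
      (1 : Matrix (Fin d) (Fin d) (R ⧸ 𝔪 ^ (n + 1))) i j by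
        rw [Matrix.one_apply, Matrix.one_apply]; split_ifs <;> simp]
    exact e1

end

end Pool.Agent.E8helper34.M4
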