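import Mathlib
import Pool.Agent.E8helper34.M4.Hom

set_option autoImplicit false

/-! Subgroups of the homology stable under Humphries' group. -/

namespace Pool.Agent.E8helper34.M4

open Pool.Agent.E8helper34.MR

open Pool.Agent.H29R2.MG Pool.Agent.TH35.MG Pool.Agent.R352.MG Pool.Agent.R665.MGR
open Pool.Agent.E8helper34.MC (AA_twist)
open Module Matrix

section
variable {g : ℕ}

theorem hc_surj (v : Fin g ⊕ Fin g → ℤ) : ∃ y : SurfaceGroup g, homologyClass y = v := by
  let T : AddSubgroup (Fin g ⊕ Fin g → ℤ) :=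
    { carrier := {v | ∃ y : SurfaceGroup g, homologyClass y = v}
      add_mem' := by
        rintro _ _ ⟨y, rfl⟩ ⟨z, rfl⟩
        exact ⟨y * z, hc_mul y z⟩
      zero_mem' := ⟨1, hc_one⟩
      neg_mem' := by
        rintro _ ⟨y, rfl⟩
        exact ⟨y⁻¹, hc_inv y⟩ }
  have h : v ∈ T := by
    rw [← Finset.univ_sum_single v]
    refine T.sum_mem fun i _ => ?_
    have e : (Pi.single i (v i) : Fin g ⊕ Fin g → ℤ) = v i • Pi.single i 1 := by
      rw [← Pi.single_smul, smul_eq_mul, mul_one]
    rw [e]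
    exact T.zsmul_mem ⟨gen i, hc_gen i⟩ _
  exact h

theorem HM_vec {x : HG g} {φ : orientedAut g} (h : classOf g φ = x) (y : SurfaceGroup g) :
    HM g x *ᵥ homologyClass y = homologyClass (φ.1 y) := by
  rw [HM_class h, Ho_vec]

theorem HM_t {j : ℕ} (hj : j < 2 * g) (v : Fin g ⊕ Fin g → ℤ) :
    HM g (tM g j) *ᵥ v = tv (cls g j) v := by
  obtain ⟨y, rfl⟩ := hc_surj v
  rw [HM_vec (tM_class hj)]
  rcases Nat.even_or_odd' j with ⟨i, rfl | rfl⟩
  · have h := hc_even (⟨i, by omega⟩ : Fin g) y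
    rw [← ce_hc] at h
    rw [show cls g (2 * i) = ce (⟨i, by omega⟩ : Fin g) from cls_even ⟨i, by omega⟩]
    exact h
  · have h := hc_odd (⟨i, by omega⟩ : Fin g) y
    rw [show cls g (2 * i + 1) = Pi.single (Sum.inr (⟨i, by omega⟩ : Fin g)) 1 from
      cls_odd ⟨i, by omega⟩]
    exact h

theorem HM_a (hg : 2 ≤ g) (m : Fin g) (v : Fin g ⊕ Fin g → ℤ) :
    HM g (aM g m) *ᵥ v = tv (Pi.single (Sum.inl m) 1) v := by
  obtain ⟨y, rfl⟩ := hc_surj v
  obtain ⟨τ, hτ, h⟩ := AA_twist (g := g) m.2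
  rw [HM_vec (x := aM g m) (φ := τ) (by rw [hτ, aM_coe hg m.2])]
  refine hc_tv τ.1 _ ?_ ?_ y
  · intro i
    have h1 : homologyClass (τ.1 (mk g (fa i))) = homologyClass (gen (Sum.inl i)) :=
      congrArg homologyClass (h (Sum.inl i))
    rw [h1, hc_gen, tv, form_inl]
    simp
  · intro i
    have h1 : homologyClass (τ.1 (mk g (fb i))) =
        homologyClass (twistValAt g m (Sum.inr i)) := congrArg homologyClass (h (Sum.inr i))
    rw [h1, tv, form_inr]
    show homologyClass (if (i : ℕ) = m then _ else _) = _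
    by_cases hi : i = m
    · subst hi
      rw [if_pos rfl, hc_mul, hc_gen, hc_gen]
      simp
    · rw [if_neg (fun e => hi (Fin.ext e)), hc_gen]
      rw [Pi.single_eq_of_ne (fun e => hi (Sum.inl.inj e))]
      simp

theorem form_cls {j : ℕ} (hj : j + 1 < 2 * g) :
    intersectionForm (cls g j) (cls g (j + 1)) = 1 := by
  rcases Nat.even_or_odd' j with ⟨i, rfl | rfl⟩
  · rw [show cls g (2 * i) = ce (⟨i, by omega⟩ : Fin g) from cls_even ⟨i, by omega⟩,
      show cls g (2 * i + 1) = Pi.single (Sum.inr (⟨i, by omega⟩ : Fin g)) 1 from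
      cls_odd ⟨i, by omega⟩, form_swap, form_inr, ce_self]
    norm_num
  · rw [show 2 * i + 1 + 1 = 2 * (i + 1) by ring,
      show cls g (2 * (i + 1)) = ce (⟨i + 1, by omega⟩ : Fin g) from cls_even ⟨i + 1, by omega⟩,
      show cls g (2 * i + 1) = Pi.single (Sum.inr (⟨i, by omega⟩ : Fin g)) 1 from
      cls_odd ⟨i, by omega⟩, form_inr]
    simp [ce]

/-- stable subgroups containing one class of the chain contain everything -/
theorem all_of_cls {S : AddSubgroup (Fin g ⊕ Fin g → ℤ)}
    (hS : ∀ x : HG g, ∀ v ∈ S, HM g x *ᵥ v ∈ S) {n : ℤ} {j : ℕ} (hj : j < 2 * g)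
    (h : n • cls g j ∈ S) (k : Fin g ⊕ Fin g) :
    n • (Pi.single k 1 : Fin g ⊕ Fin g → ℤ) ∈ S := by
  have htv : ∀ (u v : Fin g ⊕ Fin g → ℤ), tv u (n • v) = n • v - (intersectionForm v u) • n • u := by
    intro u v
    rw [tv, form_smul_left, smul_smul, mul_comm]
  have hup : ∀ i, i + 1 < 2 * g → n • cls g i ∈ S → n • cls g (i + 1) ∈ S := by
    intro i hi h1
    have h2 := hS (tM g (i + 1)) _ h1
    rw [HM_t hi, htv, form_cls hi, one_smul] at h2
    have h3 := S.sub_mem h1 h2
    rwa [sub_sub_cancel] at h3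
  have hdown : ∀ i, i + 1 < 2 * g → n • cls g (i + 1) ∈ S → n • cls g i ∈ S := by
    intro i hi h1
    have h2 := hS (tM g i) _ h1
    rw [HM_t (by omega), htv, form_swap, form_cls hi, neg_one_smul, sub_neg_eq_add] at h2
    have h3 := S.sub_mem h2 h1
    rwa [add_sub_cancel_left] at h3
  have h0 : ∀ i, i < 2 * g → n • cls g i ∈ S → n • cls g 0 ∈ S := by
    intro i
    induction i with
    | zero => intro _ h; exact h
    | succ i ih => intro hi h1; exact ih (by omega) (hdown i hi h1)
  have h1 := h0 j hj h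
  have hall : ∀ i, i < 2 * g → n • cls g i ∈ S := by
    intro i
    induction i with
    | zero => intro _; exact h1
    | succ i ih => intro hi; exact hup i hi (ih (by omega))
  have huu : ∀ m, m < g → n • uu (cl ℤ g) m ∈ S := by
    intro m
    induction m with
    | zero => intro _; exact hall 0 (by omega)
    | succ m ih =>
      intro hm
      have e : uu (cl ℤ g) (m + 1) = uu (cl ℤ g) m + cl ℤ g (2 * m + 2) := rfl
      rw [e, smul_add]
      exact S.add_mem (ih (by omega)) (hall _ (by omega))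
  rcases k with m | m
  · have h2 := huu m m.2
    rw [uu_cl m.2] at h2
    exact h2
  · have h2 := hall (2 * m + 1) (by omega)
    rw [cls_odd] at h2
    exact h2

/-- stable subgroups of the homology -/
theorem stable_sub (hg : 2 ≤ g) {S : AddSubgroup (Fin g ⊕ Fin g → ℤ)}
    (hS : ∀ x : HG g, ∀ v ∈ S, HM g x *ᵥ v ∈ S) {v : Fin g ⊕ Fin g → ℤ} (hv : v ∈ S)
    (k k' : Fin g ⊕ Fin g) : v k • (Pi.single k' 1 : Fin g ⊕ Fin g → ℤ) ∈ S := by
  rcases k with i | i
  · -- the transvection about `b_i`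
    apply all_of_cls hS (j := 2 * i + 1) (by omega)
    have h1 := hS (tM g (2 * i + 1)) v hv
    rw [HM_t (by omega), tv, cls_odd, form_swap, form_inr, neg_neg] at h1
    have h2 := S.sub_mem hv h1
    rw [sub_sub_cancel] at h2
    rw [cls_odd]
    exact h2
  · apply all_of_cls hS (j := 2 * i + 1) (by omega)
    -- the transvection about `a_i`
    have h1 := hS (aM g i) v hv
    rw [HM_a hg, tv, form_swap, form_inl] at h1
    have h2 := S.sub_mem h1 hv
    rw [sub_sub_cancel_left, neg_smul, neg_neg] at h2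
    -- then the transvection about `b_i`
    have h3 := hS (tM g (2 * i + 1)) _ h2
    rw [HM_t (by omega), tv, cls_odd, form_smul_left, form_inl, Pi.single_eq_same, mul_one] at h3
    have h4 := S.sub_mem h2 h3
    rw [sub_sub_cancel] at h4
    rw [cls_odd]
    exact h4

end

end Pool.Agent.E8helper34.M4
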