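import Mathlib
import Pool.Agent.E8helper34.M4.Gg
import Pool.Agent.E8helper34.M4.Zz
import Pool.Agent.E8helper34.M4.Ker

set_option autoImplicit false

/-! The kernels of the actions on modules. -/

namespace Pool.Agent.E8helper34.M4

open Pool.Agent.E8helper34.MR

open Pool.Agent.H29R2.MG Pool.Agent.TH35.MG Pool.Agent.R352.MG Pool.Agent.R665.MGR
open Module Matrix

section
variable {g : ℕ} {R V : Type*} [CommRing R] [AddCommGroup V] [Module R V]

/-- separation of elements of finitely generated modules -/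
theorem sepM [IsNoetherianRing R] [Module.Finite R V] {v : V} (hv : v ≠ 0) :
    ∃ 𝔪 : Ideal R, 𝔪.IsMaximal ∧ ∃ n : ℕ, v ∉ 𝔪 ^ n • (⊤ : Submodule R V) := by
  have h1 : Ideal.torsionOf R V v ≠ ⊤ := by
    intro h
    apply hv
    have h2 : (1 : R) ∈ Ideal.torsionOf R V v := by rw [h]; trivial
    rw [Ideal.mem_torsionOf_iff, one_smul] at h2
    exact h2
  obtain ⟨𝔪, hm, hle⟩ := Ideal.exists_le_maximal _ h1
  refine ⟨𝔪, hm, ?_⟩
  by_contra hcon
  push Not at hcon
  have h4 : v ∈ (⨅ i : ℕ, 𝔪 ^ i • ⊤ : Submodule R V) := by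
    rw [Submodule.mem_iInf]
    exact hcon
  obtain ⟨s, hs⟩ := (Ideal.mem_iInf_smul_pow_eq_bot_iff 𝔪 v).1 h4
  have h5 : (1 - (s : R)) ∈ Ideal.torsionOf R V v := by
    rw [Ideal.mem_torsionOf_iff, sub_smul, one_smul, hs, sub_self]
  have h7 := 𝔪.add_mem (hle h5) s.2
  rw [sub_add_cancel] at h7
  exact hm.ne_top ((Ideal.eq_top_iff_one _).2 h7)

/-- the combination of a family -/
def Lam (u : Fin g ⊕ Fin g → V) (v : Fin g ⊕ Fin g → ℤ) : V := ∑ l, v l • u l

theorem Lam_add (u : Fin g ⊕ Fin g → V) (v w : Fin g ⊕ Fin g → ℤ) :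
    Lam u (v + w) = Lam u v + Lam u w := by
  unfold Lam
  rw [← Finset.sum_add_distrib]
  apply Finset.sum_congr rfl
  intro l _
  rw [Pi.add_apply, add_smul]

theorem Lam_single (u : Fin g ⊕ Fin g → V) (n : ℤ) (l : Fin g ⊕ Fin g) :
    Lam u (n • Pi.single l 1) = n • u l := by
  unfold Lam
  rw [Finset.sum_eq_single l]
  · simp
  · intro b _ hb
    rw [Pi.smul_apply, Pi.single_eq_of_ne hb]
    simp
  · intro h; exact absurd (Finset.mem_univ _) h

variable (ρ : HG g →* Module.End R V) {U : Submodule R V} (hU : Stable ρ U)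
  {u : Fin g ⊕ Fin g → V} (hu : ∀ x l, ρ x (u l) - ∑ j, HR g R x j l • u j ∈ U)

include hu in
theorem Lam_act (x : HG g) (v : Fin g ⊕ Fin g → ℤ) :
    ρ x (Lam u v) - Lam u (HM g x *ᵥ v) ∈ U := by
  have e : ρ x (Lam u v) - Lam u (HM g x *ᵥ v) =
      ∑ l, v l • (ρ x (u l) - ∑ j, HR g R x j l • u j) := by
    unfold Lam
    rw [map_sum]
    simp only [smul_sub, Finset.sum_sub_distrib, map_zsmul]
    congr 1
    simp only [Matrix.mulVec, dotProduct, Finset.sum_smul, Finset.smul_sum]
    rw [Finset.sum_comm]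
    apply Finset.sum_congr rfl
    intro l _
    apply Finset.sum_congr rfl
    intro j _
    rw [HR_apply, Int.cast_smul_eq_zsmul, smul_smul, mul_comm]
  rw [e]
  exact Submodule.sum_mem _ fun l _ => U.smul_of_tower_mem _ (hu x l)

/-- the stable subgroup attached to a family -/
def SS (U : Submodule R V) (u : Fin g ⊕ Fin g → V) : AddSubgroup (Fin g ⊕ Fin g → ℤ) where
  carrier := {v | Lam u v ∈ U}
  add_mem' := by
    intro v w hv hw
    show Lam u (v + w) ∈ U
    rw [Lam_add]
    exact U.add_mem hv hw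
  zero_mem' := by
    show Lam u 0 ∈ U
    have : Lam u (0 : Fin g ⊕ Fin g → ℤ) = 0 := by
      unfold Lam
      simp
    rw [this]
    exact U.zero_mem
  neg_mem' := by
    intro v hv
    show Lam u (-v) ∈ U
    have : Lam u (-v) = - Lam u v := by
      unfold Lam
      simp
    rw [this]
    exact U.neg_mem hv

include hU hu in
theorem SS_coeff (hg : 2 ≤ g) {v : Fin g ⊕ Fin g → ℤ} (hv : Lam u v ∈ U)
    (k k' : Fin g ⊕ Fin g) : v k • u k' ∈ U := by
  have h := stable_sub hg (S := SS U u) (by
    intro x w hw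
    have h1 := Lam_act ρ hu x w
    have h2 := U.sub_mem (hU x _ hw) h1
    rw [sub_sub_cancel] at h2
    exact h2) hv k k'
  have h1 : Lam u (v k • Pi.single k' 1) ∈ U := h
  rwa [Lam_single] at h1

include hu in
theorem fam_sub (x : HG g) (l : Fin g ⊕ Fin g) :
    ρ x (u l) - u l - ∑ j, (HM g x - 1) j l • u j ∈ U := by
  have h1 := Lam_act ρ hu x (Pi.single l 1)
  have e1 : Lam u (Pi.single l 1) = u l := by
    have := Lam_single u 1 l
    rwa [one_smul, one_smul] at this
  have e2 : Lam u (HM g x *ᵥ Pi.single l 1) = ∑ j, (HM g x) j l • u j := by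
    rw [Matrix.mulVec_single_one]
    rfl
  have e3 : ∑ j, (HM g x - 1) j l • u j = ∑ j, (HM g x) j l • u j - u l := by
    simp only [Matrix.sub_apply, sub_smul, Finset.sum_sub_distrib]
    congr 1
    rw [Finset.sum_eq_single l]
    · simp
    · intro b _ hb
      rw [Matrix.one_apply_ne hb, zero_smul]
    · intro h; exact absurd (Finset.mem_univ _) h
  rw [e1, e2] at h1
  rw [e3]
  convert h1 using 1
  abel

/-- the kernel over a Noetherian ring -/
theorem ker_mod_noeth [IsNoetherianRing R] {d : ℕ} (hd4 : 4 * g < bd g)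
    (hd : d < bd g) (hunit : IsUnit ((2 * g - 2 : ℕ) : R))
    (s : Fin d → V) (hgen : ∀ v, ∃ r : Fin d → R, v = ∑ i, r i • s i) :
    ∃ m : ℕ, (∀ n : ℕ, (∀ v : V, n • v = 0) → m ∣ n) ∧
      ∀ x, ρ x = 1 ↔ ∀ k l, (m : ℤ) ∣ (HM g x - 1) k l := by
  classical
  have hg := seven_le hd
  have hg0 : 0 < g := by omega
  have hfin : Module.Finite R V := by
    refine ⟨⟨Finset.univ.image s, ?_⟩⟩
    rw [Finset.coe_image, Finset.coe_univ, Set.image_univ, eq_top_iff]
    rintro v -
    obtain ⟨r, rfl⟩ := hgen v
    exact Submodule.sum_mem _ fun i _ => Submodule.smul_mem _ _ (Submodule.subset_span ⟨i, rfl⟩)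
  have htop : ∀ (𝔪 : Ideal R), 𝔪.IsMaximal → ∀ n,
      GG ρ (𝔪 ^ (n + 1) • (⊤ : Submodule R V)) = ⊤ := by
    intro 𝔪 hmax n
    let _ : Field (R ⧸ 𝔪) := Ideal.Quotient.field 𝔪
    have hK : ((2 * g - 2 : ℕ) : R ⧸ 𝔪) ≠ 0 := by
      have h1 := hunit.map (Ideal.Quotient.mk 𝔪)
      rw [map_natCast] at h1
      exact h1.ne_zero
    have hker : RingHom.ker (Ideal.Quotient.mk 𝔪) = 𝔪 := Ideal.mk_ker
    apply GG_top (k := R ⧸ 𝔪) (κ := Ideal.Quotient.mk 𝔪) Ideal.Quotient.mk_surjective ρ s hgen
      hd4 hd hK (n + 1) _ (smul_stable ρ _)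
    · rw [hker]
    · rw [hker]
      exact Submodule.smul_mono_left (Ideal.pow_le_self (by omega))
  -- the annihilator
  let I0 : Ideal ℤ :=
    { carrier := {n | ∀ x v, n • (ρ x v - v) = 0}
      add_mem' := by
        intro n n' h h' x v
        rw [add_smul, h x v, h' x v, add_zero]
      zero_mem' := by
        intro x v
        rw [zero_smul]
      smul_mem' := by
        intro c n h x v
        rw [smul_eq_mul, mul_smul, h x v, smul_zero] }
  have hI0 : ∀ n : ℤ, n ∈ I0 ↔ ∀ x v, n • (ρ x v - v) = 0 := fun n => Iff.rfl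
  set m := (Submodule.IsPrincipal.generator I0).natAbs with hm
  have hmd : ∀ n : ℤ, n ∈ I0 ↔ (m : ℤ) ∣ n := by
    intro n
    rw [Submodule.IsPrincipal.mem_iff_generator_dvd I0, hm, Int.natCast_natAbs, abs_dvd]
  have hmI : (m : ℤ) ∈ I0 := (hmd _).2 dvd_rfl
  refine ⟨m, ?_, ?_⟩
  · intro n hn
    have h1 : (n : ℤ) ∈ I0 := by
      rw [hI0]
      intro x v
      rw [natCast_zsmul]
      exact hn _
    exact Int.natCast_dvd_natCast.1 ((hmd _).1 h1)
  intro x
  constructor
  · intro hx k l
    rw [← hmd, hI0]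
    intro y v
    by_contra hne
    obtain ⟨𝔪, hmax, n, hn⟩ := sepM (R := R) hne
    set U := 𝔪 ^ (n + 1) • (⊤ : Submodule R V) with hUdef
    have hUn : U ≤ 𝔪 ^ n • (⊤ : Submodule R V) :=
      Submodule.smul_mono_left (Ideal.pow_le_pow_right (by omega))
    have hU : Stable ρ U := smul_stable ρ _
    -- the submodule of the vectors with the property
    let P : Submodule R V :=
      { carrier := {w | ∀ y, (HM g x - 1) k l • (ρ y w - w) ∈ U}
        add_mem' := by
          intro w w' h h' y
          have e : (HM g x - 1) k l • (ρ y (w + w') - (w + w')) =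
              (HM g x - 1) k l • (ρ y w - w) + (HM g x - 1) k l • (ρ y w' - w') := by
            rw [map_add, ← smul_add]
            congr 1
            abel
          rw [e]
          exact U.add_mem (h y) (h' y)
        zero_mem' := by
          intro y
          rw [map_zero, sub_zero, smul_zero]
          exact U.zero_mem
        smul_mem' := by
          intro c w h y
          have e : (HM g x - 1) k l • (ρ y (c • w) - c • w) =
              c • ((HM g x - 1) k l • (ρ y w - w)) := by
            rw [map_smul, ← smul_sub, smul_comm]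
          rw [e]
          exact U.smul_mem c (h y) }
    have hP : GG ρ U ≤ P := by
      apply Submodule.span_le.2
      rintro w (⟨u, hu, l', rfl⟩ | hw)
      · have hcol : Lam u (fun j => (HM g x - 1) j l) ∈ U := by
          have h1 := fam_sub ρ hu x l
          rw [hx, Module.End.one_apply, sub_self, zero_sub] at h1
          exact (U.neg_mem_iff).1 h1
        have hcoef : ∀ k', (HM g x - 1) k l • u k' ∈ U := fun k' =>
          SS_coeff ρ hU hu (by omega) hcol k k'
        intro y
        have h1 := fam_sub ρ hu y l'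
        have e : (HM g x - 1) k l • (ρ y (u l') - u l') =
            (HM g x - 1) k l • (ρ y (u l') - u l' - ∑ j, (HM g y - 1) j l' • u j) +
              ∑ j, (HM g y - 1) j l' • ((HM g x - 1) k l • u j) := by
          rw [smul_sub (_ : ℤ) (ρ y (u l') - u l'), Finset.smul_sum]
          simp only [smul_comm ((HM g x - 1) k l)]
          abel
        rw [e]
        exact U.add_mem (U.smul_of_tower_mem _ h1)
          (Submodule.sum_mem _ fun j _ => U.smul_of_tower_mem _ (hcoef j))
      · intro y
        exact U.smul_of_tower_mem _ (hw y)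
    have hv : v ∈ P := by
      apply hP
      rw [htop 𝔪 hmax n]
      trivial
    exact hn (hUn (hv y))
  · intro hx
    apply LinearMap.ext
    intro v
    rw [Module.End.one_apply]
    by_contra hne
    obtain ⟨𝔪, hmax, n, hn⟩ := sepM (R := R) (sub_ne_zero.2 hne)
    set U := 𝔪 ^ (n + 1) • (⊤ : Submodule R V) with hUdef
    have hUn : U ≤ 𝔪 ^ n • (⊤ : Submodule R V) :=
      Submodule.smul_mono_left (Ideal.pow_le_pow_right (by omega))
    have hU : Stable ρ U := smul_stable ρ _
    let P : Submodule R V :=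
      { carrier := {w | ρ x w - w ∈ U}
        add_mem' := by
          intro w w' h h'
          have e : ρ x (w + w') - (w + w') = (ρ x w - w) + (ρ x w' - w') := by
            rw [map_add]
            abel
          show ρ x (w + w') - (w + w') ∈ U
          rw [e]
          exact U.add_mem h h'
        zero_mem' := by
          show ρ x 0 - 0 ∈ U
          rw [map_zero, sub_zero]
          exact U.zero_mem
        smul_mem' := by
          intro c w h
          show ρ x (c • w) - c • w ∈ U
          rw [map_smul, ← smul_sub]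
          exact U.smul_mem c h }
    have hP : GG ρ U ≤ P := by
      apply Submodule.span_le.2
      rintro w (⟨u, hu, l', rfl⟩ | hw)
      · -- `m` kills the family
        have h0 : (m : ℤ) • (ρ (tM g 0) (u (Sum.inr ⟨0, hg0⟩)) - u (Sum.inr ⟨0, hg0⟩)) = 0 :=
          (hI0 _).1 hmI _ _
        have h1 := fam_sub ρ hu (tM g 0) (Sum.inr ⟨0, hg0⟩)
        have h2 := U.smul_of_tower_mem (m : ℤ) h1
        rw [smul_sub, h0, zero_sub, U.neg_mem_iff] at h2
        have h3 : Lam u (fun j => (m : ℤ) * (HM g (tM g 0) - 1) j (Sum.inr ⟨0, hg0⟩)) ∈ U := by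
          have e : Lam u (fun j => (m : ℤ) * (HM g (tM g 0) - 1) j (Sum.inr ⟨0, hg0⟩)) =
              (m : ℤ) • ∑ j, (HM g (tM g 0) - 1) j (Sum.inr ⟨0, hg0⟩) • u j := by
            unfold Lam
            rw [Finset.smul_sum]
            apply Finset.sum_congr rfl
            intro j _
            rw [mul_smul]
          rw [e]
          exact h2
        have hcoef : ∀ k', (m : ℤ) • u k' ∈ U := by
          intro k'
          have h4 := SS_coeff ρ hU hu (by omega) h3 (Sum.inl ⟨0, hg0⟩) k'
          have h5 := HM_zero (g := g) hg0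
          simp only [h5, mul_one] at h4
          exact h4
        have h6 := fam_sub ρ hu x l'
        have h7 : ∑ j, (HM g x - 1) j l' • u j ∈ U := by
          refine Submodule.sum_mem _ fun j _ => ?_
          obtain ⟨t, ht⟩ := hx j l'
          rw [ht, mul_comm, mul_smul]
          exact U.smul_of_tower_mem _ (hcoef j)
        have h8 := U.add_mem h6 h7
        rw [sub_add_cancel] at h8
        exact h8
      · exact hw x
    have hv : v ∈ P := by
      apply hP
      rw [htop 𝔪 hmax n]
      trivial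
    exact hn (hUn hv)

end

end Pool.Agent.E8helper34.M4
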