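import Mathlib
import Pool.Agent.E8helper34.M4.Gs

set_option autoImplicit false

/-! Modules on which `2 g - 2` is injective: reduction to the localisation. -/

namespace Pool.Agent.E8helper34.M4

open Module Matrix
open Pool.Agent.E8helper34.MR (HG)

theorem ker_inj {g d : ℕ} {R V : Type*} [CommRing R] [AddCommGroup V] [Module R V]
    (ρ : HG g →* Module.End R V) (hd4 : 4 * g < bd g)
    (hd : d < bd g) (hinj : ∀ v : V, (2 * g - 2) • v = 0 → v = 0)
    (s : Fin d → V) (hgen : ∀ v, ∃ r : Fin d → R, v = ∑ i, r i • s i) :
    ∃ m : ℕ, (∀ n : ℕ, (∀ v : V, n • v = 0) → m ∣ n) ∧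
      ∀ x, ρ x = 1 ↔ ∀ k l, (m : ℤ) ∣ (HM g x - 1) k l := by
  classical
  let S : Submonoid R := Submonoid.powers ((2 * g - 2 : ℕ) : R)
  have hS : ∀ u : S, ∀ v : V, (u : R) • v = 0 → v = 0 := by
    rintro ⟨u, n, rfl⟩ v hv
    have key : ∀ n : ℕ, ∀ v : V, (((2 * g - 2 : ℕ) : R) ^ n) • v = 0 → v = 0 := by
      intro n
      induction n with
      | zero =>
        intro v hv
        rwa [pow_zero, one_smul] at hv
      | succ n ih =>
        intro v hv
        rw [pow_succ, mul_smul] at hv
        have h1 := ih _ hv
        rw [Nat.cast_smul_eq_nsmul] at h1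
        exact hinj v h1
    exact key n v hv
  let ρ' : HG g →* Module.End (Localization S) (LocalizedModule S V) :=
    { toFun := fun x => LocalizedModule.map S (ρ x)
      map_one' := by
        ext v
        induction v using LocalizedModule.induction_on with
        | h v u =>
          rw [LocalizedModule.map_mk, map_one]
          rfl
      map_mul' := by
        intro x y
        ext v
        induction v using LocalizedModule.induction_on with
        | h v u =>
          rw [Module.End.mul_apply, LocalizedModule.map_mk, LocalizedModule.map_mk,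
            LocalizedModule.map_mk, map_mul]
          rfl }
  have hρ' : ∀ x v (u : S), ρ' x (LocalizedModule.mk v u) = LocalizedModule.mk (ρ x v) u :=
    fun x v u => LocalizedModule.map_mk S (ρ x) v u
  have hunit : IsUnit ((2 * g - 2 : ℕ) : Localization S) := by
    have h1 := IsLocalization.map_units (Localization S)
      (⟨((2 * g - 2 : ℕ) : R), 1, pow_one _⟩ : S)
    simpa using h1
  obtain ⟨m, h1, h2⟩ := ker_mod ρ' hd4 hd hunit
    (fun i => LocalizedModule.mkLinearMap S V (s i)) (by
      intro v
      induction v using LocalizedModule.induction_on with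
      | h v u =>
        obtain ⟨r, hr⟩ := hgen v
        refine ⟨fun i => Localization.mk 1 u * algebraMap R _ (r i), ?_⟩
        have e1 : LocalizedModule.mk v u =
            Localization.mk 1 u • LocalizedModule.mkLinearMap S V v := by
          rw [LocalizedModule.mkLinearMap_apply, LocalizedModule.mk_smul_mk, one_smul, mul_one]
        rw [e1]
        conv_lhs => rw [hr]
        rw [map_sum, Finset.smul_sum]
        refine Finset.sum_congr rfl fun i _ => ?_
        rw [map_smul, mul_smul, algebraMap_smul])
  refine ⟨m, ?_, ?_⟩
  · intro n hn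
    apply h1
    intro v
    induction v using LocalizedModule.induction_on with
    | h v u =>
      have e1 : LocalizedModule.mk v u =
          Localization.mk 1 u • LocalizedModule.mkLinearMap S V v := by
        rw [LocalizedModule.mkLinearMap_apply, LocalizedModule.mk_smul_mk, one_smul, mul_one]
      rw [e1, smul_comm, ← map_nsmul, hn, map_zero, smul_zero]
  · intro x
    rw [← h2]
    constructor
    · intro h
      apply LinearMap.ext
      intro v
      induction v using LocalizedModule.induction_on with
      | h v u =>
        rw [hρ', h]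
        rfl
    · intro h
      apply LinearMap.ext
      intro v
      have h3 := LinearMap.congr_fun h (LocalizedModule.mk v 1)
      rw [hρ', Module.End.one_apply, LocalizedModule.mk_eq] at h3
      obtain ⟨u, hu⟩ := h3
      rw [one_smul, one_smul] at hu
      have h4 : (u : R) • (ρ x v - v) = 0 := by
        rw [smul_sub, sub_eq_zero]
        exact hu
      exact sub_eq_zero.1 (hS u _ h4)

/-- the bound for `g ≥ 13` -/
theorem bd_eq {g : ℕ} (hg : 13 ≤ g) : bd g = 4 * (g - 5).choose 2 := by
  obtain ⟨n, rfl⟩ : ∃ n, g = n + 13 := ⟨g - 13, by omega⟩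
  have h : ∀ n : ℕ, 4 * (n + 8).choose 2 ≤ 2 ^ (n + 7) := by
    intro n
    induction n with
    | zero => decide
    | succ n ih =>
      have h1 : (n + 1 + 8).choose 2 = (n + 8) + (n + 8).choose 2 := by
        rw [show n + 1 + 8 = (n + 8) + 1 by ring, Nat.choose_succ_succ' (n + 8) 1,
          Nat.choose_one_right]
      have h2 : 2 ^ (n + 1 + 7) = 2 * 2 ^ (n + 7) := by ring
      have h3 : ∀ m : ℕ, m + 8 ≤ (m + 8).choose 2 := by
        intro m
        induction m with
        | zero => decide
        | succ m ih' =>
          have h4 : (m + 1 + 8).choose 2 = (m + 8) + (m + 8).choose 2 := by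
            rw [show m + 1 + 8 = (m + 8) + 1 by ring, Nat.choose_succ_succ' (m + 8) 1,
              Nat.choose_one_right]
          omega
      have h5 := h3 n
      omega
  unfold bd
  rw [show n + 13 - 5 = n + 8 by omega, show n + 13 - 6 = n + 7 by omega]
  exact min_eq_left (h n)

theorem four_lt {g : ℕ} (hg : 13 ≤ g) : 4 * g < bd g := by
  rw [bd_eq hg]
  obtain ⟨n, rfl⟩ : ∃ n, g = n + 13 := ⟨g - 13, by omega⟩
  have h : ∀ n : ℕ, n + 13 < (n + 8).choose 2 := by
    intro n
    induction n with
    | zero => decide
    | succ n ih =>
      have h1 : (n + 1 + 8).choose 2 = (n + 8) + (n + 8).choose 2 := by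
        rw [show n + 1 + 8 = (n + 8) + 1 by ring, Nat.choose_succ_succ' (n + 8) 1,
          Nat.choose_one_right]
      omega
  have h2 := h n
  rw [show n + 13 - 5 = n + 8 by omega]
  omega

end Pool.Agent.E8helper34.M4
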